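import Mathlib
import Pool.Agent.Q16.SQ.Stm3
set_option autoImplicit false
noncomputable section
open scoped BigOperators
open Pool.Agent.Helper549.Tri

namespace Q16.SQ.T194

/-- region given in coordinates -/
def Reg (O u v : E2) (S : ℝ → ℝ → Prop) : Set E2 := {p | ∃ x y : ℝ, S x y ∧ p = O + x • u + y • v}

theorem nsq (u v : E2) (hu : ‖u‖ = 1) (hv : ‖v‖ = 1) (huv : ‖u - v‖ = 1) (x y : ℝ) :
    ‖x • u + y • v‖ ^ 2 = x ^ 2 + x * y + y ^ 2 := by
  have h1 := norm_sub_sq_real u v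
  have h2 := norm_add_sq_real (x • u) (y • v)
  rw [norm_smul, norm_smul, real_inner_smul_left, real_inner_smul_right, mul_pow, mul_pow, hu, hv] at h2
  rw [hu, hv, huv] at h1
  simp only [Real.norm_eq_abs, sq_abs] at h2
  rw [h2]
  have h3 : inner ℝ u v = (1 : ℝ) / 2 := by linarith
  rw [h3]; ring

theorem lin (u v : E2) (hu : ‖u‖ = 1) (hv : ‖v‖ = 1) (huv : ‖u - v‖ = 1) (x y : ℝ)
    (h : x • u + y • v = 0) : x = 0 ∧ y = 0 := by
  have h1 := nsq u v hu hv huv x y
  rw [h] at h1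
  simp only [norm_zero, ne_eq, OfNat.ofNat_ne_zero, not_false_eq_true, zero_pow] at h1
  constructor <;> nlinarith [sq_nonneg (x + y), sq_nonneg x, sq_nonneg y, sq_nonneg (x - y)]

theorem uni (O u v : E2) (hl : ∀ x y : ℝ, x • u + y • v = 0 → x = 0 ∧ y = 0) (x y x' y' : ℝ)
    (h : O + x • u + y • v = O + x' • u + y' • v) : x = x' ∧ y = y' := by
  have h1 : (x - x') • u + (y - y') • v = 0 := by
    have : (x - x') • u + (y - y') • v = (O + x • u + y • v) - (O + x' • u + y' • v) := by module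
    rw [this, h, sub_self]
  have h2 := hl _ _ h1
  exact ⟨by linarith [h2.1], by linarith [h2.2]⟩

theorem disj (O u v : E2) (hl : ∀ x y : ℝ, x • u + y • v = 0 → x = 0 ∧ y = 0) (S1 S2 : ℝ → ℝ → Prop)
    (al be ga : ℝ) (hab : al ≠ 0 ∨ be ≠ 0) (h1 : ∀ x y, S1 x y → al * x + be * y ≤ ga)
    (h2 : ∀ x y, S2 x y → ga ≤ al * x + be * y) :
    Disjoint (interior (Reg O u v S1)) (interior (Reg O u v S2)) := by
  rw [Set.disjoint_left]
  intro p hp1 hp2
  have hpos : 0 < al ^ 2 + be ^ 2 := by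
    rcases hab with h | h
    · have := sq_pos_of_ne_zero h; nlinarith [sq_nonneg be]
    · have := sq_pos_of_ne_zero h; nlinarith [sq_nonneg al]
  obtain ⟨x1, y1, hs1, e1⟩ := interior_subset hp1
  obtain ⟨x2, y2, hs2, e2⟩ := interior_subset hp2
  have e12 := uni O u v hl x1 y1 x2 y2 (by rw [← e1, ← e2])
  have q1 := h1 x1 y1 hs1
  have q2 := h2 x2 y2 hs2
  rw [← e12.1, ← e12.2] at q2
  have hcont : Continuous (fun τ : ℝ => p + τ • (al • u + be • v)) := by fun_prop
  have hmem : (fun τ : ℝ => p + τ • (al • u + be • v)) ⁻¹' (interior (Reg O u v S1)) ∈ nhds (0 : ℝ) := by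
    apply hcont.continuousAt.preimage_mem_nhds
    simpa using isOpen_interior.mem_nhds hp1
  rw [Metric.mem_nhds_iff] at hmem
  obtain ⟨ε, hε, hb⟩ := hmem
  have hin : (ε / 2) ∈ Metric.ball (0 : ℝ) ε := by
    rw [Metric.mem_ball, Real.dist_eq, sub_zero, abs_of_pos (by linarith)]; linarith
  have h3 := interior_subset (hb hin)
  obtain ⟨x3, y3, hs3, e3⟩ := h3
  have e4 : O + x3 • u + y3 • v = O + (x1 + ε / 2 * al) • u + (y1 + ε / 2 * be) • v := by
    rw [← e3]; simp only [e1]; module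
  have e5 := uni O u v hl _ _ _ _ e4
  have q3 := h1 x3 y3 hs3
  rw [e5.1, e5.2] at q3
  nlinarith [mul_pos hε hpos]

theorem mem_tri (A B C p : E2) : p ∈ TriOf A B C ↔
    ∃ α β γ : ℝ, 0 ≤ α ∧ 0 ≤ β ∧ 0 ≤ γ ∧ α + β + γ = 1 ∧ p = α • A + β • B + γ • C := by
  have hr : Set.range ![A, B, C] = {A, B, C} := by
    ext q; simp [eq_comm]; tauto
  unfold TriOf TriSet
  rw [hr, convexHull_insert ⟨B, by simp⟩, convexHull_pair, mem_convexJoin]
  constructor
  · rintro ⟨a, ha, q, hq, hp⟩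
    rw [Set.mem_singleton_iff] at ha
    subst ha
    obtain ⟨s, t, hs, ht, hst, rfl⟩ := hq
    obtain ⟨s', t', hs', ht', hst', rfl⟩ := hp
    refine ⟨s', t' * s, t' * t, hs', by positivity, by positivity, ?_, by module⟩
    rw [add_assoc, ← mul_add, hst, mul_one, hst']
  · rintro ⟨α, β, γ, hα, hβ, hγ, hs, rfl⟩
    by_cases h : β + γ = 0
    · have hb : β = 0 := by linarith
      have hg : γ = 0 := by linarith
      subst hb; subst hg
      refine ⟨A, rfl, B, left_mem_segment ℝ B C, ?_⟩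
      have : α = 1 := by linarith
      subst this
      simpa using left_mem_segment ℝ A B
    · refine ⟨A, rfl, (β / (β + γ)) • B + (γ / (β + γ)) • C, ⟨_, _, by positivity, by positivity, ?_, rfl⟩,
        ⟨α, β + γ, hα, by linarith, by linarith, ?_⟩⟩
      · field_simp
      · rw [smul_add, smul_smul, smul_smul, mul_div_cancel₀ _ h, mul_div_cancel₀ _ h]
        rw [add_assoc]

theorem aff (O u v : E2) (hl : ∀ x y : ℝ, x • u + y • v = 0 → x = 0 ∧ y = 0) (x1 y1 x2 y2 x3 y3 : ℝ)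
    (hd : (x2 - x1) * (y3 - y1) - (x3 - x1) * (y2 - y1) ≠ 0) :
    AffineIndependent ℝ ![O + x1 • u + y1 • v, O + x2 • u + y2 • v, O + x3 • u + y3 • v] := by
  rw [affineIndependent_iff_not_collinear_set]
  intro hc
  rw [collinear_iff_of_mem (p₀ := O + x1 • u + y1 • v) (by simp)] at hc
  obtain ⟨w, hw⟩ := hc
  obtain ⟨r, hr⟩ := hw (O + x2 • u + y2 • v) (by simp)
  obtain ⟨s, hs⟩ := hw (O + x3 • u + y3 • v) (by simp)
  simp only [vadd_eq_add] at hr hs
  have e2 : (x2 - x1) • u + (y2 - y1) • v = r • w := by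
    have : (x2 - x1) • u + (y2 - y1) • v = (O + x2 • u + y2 • v) - (O + x1 • u + y1 • v) := by module
    rw [this, hr]; abel
  have e3 : (x3 - x1) • u + (y3 - y1) • v = s • w := by
    have : (x3 - x1) • u + (y3 - y1) • v = (O + x3 • u + y3 • v) - (O + x1 • u + y1 • v) := by module
    rw [this, hs]; abel
  have e4 : (s * (x2 - x1) - r * (x3 - x1)) • u + (s * (y2 - y1) - r * (y3 - y1)) • v = 0 := by
    have : (s * (x2 - x1) - r * (x3 - x1)) • u + (s * (y2 - y1) - r * (y3 - y1)) • v =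
      s • ((x2 - x1) • u + (y2 - y1) • v) - r • ((x3 - x1) • u + (y3 - y1) • v) := by module
    rw [this, e2, e3]; module
  obtain ⟨f1, f2⟩ := hl _ _ e4
  by_cases hrz : r = 0
  · subst hrz
    rw [zero_smul] at e2
    obtain ⟨g1, g2⟩ := hl _ _ e2
    exact hd (by rw [g1, g2]; ring)
  · apply hd
    have : r * ((x2 - x1) * (y3 - y1) - (x3 - x1) * (y2 - y1)) = 0 := by
      linear_combination (-(x2 - x1)) * f2 + (y2 - y1) * f1
    rcases mul_eq_zero.1 this with h | h
    · exact absurd h hrz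
    · exact h

theorem nrm (u v : E2) (hu : ‖u‖ = 1) (hv : ‖v‖ = 1) (huv : ‖u - v‖ = 1) (x y r : ℝ) (hr : 0 ≤ r)
    (h : x ^ 2 + x * y + y ^ 2 = r ^ 2) : ‖x • u + y • v‖ = r := by
  have h1 := nsq u v hu hv huv x y
  rw [h] at h1
  exact (pow_left_inj₀ (norm_nonneg _) hr two_ne_zero).1 h1

theorem dst (O u v : E2) (hu : ‖u‖ = 1) (hv : ‖v‖ = 1) (huv : ‖u - v‖ = 1) (x1 y1 x2 y2 r : ℝ) (hr : 0 ≤ r)
    (h : (x1 - x2) ^ 2 + (x1 - x2) * (y1 - y2) + (y1 - y2) ^ 2 = r ^ 2) :
    dist (O + x1 • u + y1 • v) (O + x2 • u + y2 • v) = r := by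
  rw [dist_eq_norm]
  have : O + x1 • u + y1 • v - (O + x2 • u + y2 • v) = (x1 - x2) • u + (y1 - y2) • v := by module
  rw [this]
  exact nrm u v hu hv huv _ _ r hr h

/-- triangle in coordinates, given explicit barycentric coordinates -/
theorem triReg (O u v : E2) (x1 y1 x2 y2 x3 y3 : ℝ) (S : ℝ → ℝ → Prop)
    (h1 : ∀ α β γ : ℝ, 0 ≤ α → 0 ≤ β → 0 ≤ γ → α + β + γ = 1 →
      S (α * x1 + β * x2 + γ * x3) (α * y1 + β * y2 + γ * y3))
    (h2 : ∀ x y, S x y → ∃ α β γ : ℝ, 0 ≤ α ∧ 0 ≤ β ∧ 0 ≤ γ ∧ α + β + γ = 1 ∧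
      x = α * x1 + β * x2 + γ * x3 ∧ y = α * y1 + β * y2 + γ * y3) :
    TriOf (O + x1 • u + y1 • v) (O + x2 • u + y2 • v) (O + x3 • u + y3 • v) = Reg O u v S := by
  ext p
  rw [mem_tri]
  constructor
  · rintro ⟨α, β, γ, hα, hβ, hγ, hs, rfl⟩
    refine ⟨_, _, h1 α β γ hα hβ hγ hs, ?_⟩
    have : O = (α + β + γ) • O := by rw [hs, one_smul]
    nth_rw 4 [this]
    module
  · rintro ⟨x, y, hS, rfl⟩
    obtain ⟨α, β, γ, hα, hβ, hγ, hs, rfl, rfl⟩ := h2 x y hS
    refine ⟨α, β, γ, hα, hβ, hγ, hs, ?_⟩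
    have : O = (α + β + γ) • O := by rw [hs, one_smul]
    nth_rw 1 [this]
    module

theorem t1 (O u v : E2) (q L d : ℝ) (hq : 0 < q) (hL : 0 < L) (hd : 0 < d) :
    TriOf (O + (0 : ℝ) • u + (0 : ℝ) • v) (O + (q + L + d) • u + (0 : ℝ) • v) (O + q • u + L • v) =
    Reg O u v (fun x y => 0 ≤ y ∧ q * y ≤ L * x ∧ L * x + (L + d) * y ≤ L * (q + L + d)) := by
  apply triReg
  · intro α β γ hα hβ hγ hs
    refine ⟨by nlinarith [mul_nonneg hγ hL.le], by nlinarith [mul_nonneg (mul_nonneg hβ hL.le) (by linarith : (0:ℝ) ≤ q + L + d)], ?_⟩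
    have : 0 ≤ α * (L * (q + L + d)) := by positivity
    have h3 : β + γ = 1 - α := by linarith
    have : L * (α * 0 + β * (q + L + d) + γ * q) + (L + d) * (α * 0 + β * 0 + γ * L) = (β + γ) * (L * (q + L + d)) := by ring
    rw [this, h3]; linarith
  · rintro x y ⟨hy, h1, h2⟩
    refine ⟨1 - (L * x - q * y) / (L * (q + L + d)) - y / L, (L * x - q * y) / (L * (q + L + d)), y / L, ?_, ?_, ?_, by ring, ?_, ?_⟩
    · have : 1 - (L * x - q * y) / (L * (q + L + d)) - y / L = (L * (q + L + d) - (L * x + (L + d) * y)) / (L * (q + L + d)) := by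
        field_simp; ring
      rw [this]
      exact div_nonneg (by linarith) (by positivity)
    · exact div_nonneg (by linarith) (by positivity)
    · exact div_nonneg hy hL.le
    · field_simp; ring
    · field_simp; ring

theorem t2 (O u v : E2) (q L : ℝ) (hq : 0 < q) (hL : 0 < L) :
    TriOf (O + (0 : ℝ) • u + (0 : ℝ) • v) (O + (0 : ℝ) • u + L • v) (O + q • u + L • v) =
    Reg O u v (fun x y => 0 ≤ x ∧ y ≤ L ∧ L * x ≤ q * y) := by
  apply triReg
  · intro α β γ hα hβ hγ hs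
    refine ⟨by nlinarith [mul_nonneg hγ hq.le], by nlinarith [mul_nonneg hα hL.le], ?_⟩
    nlinarith [mul_nonneg (mul_nonneg hβ hL.le) hq.le]
  · rintro x y ⟨hx, h1, h2⟩
    refine ⟨1 - y / L, y / L - x / q, x / q, ?_, ?_, ?_, by ring, ?_, ?_⟩
    · have : 1 - y / L = (L - y) / L := by field_simp
      rw [this]
      exact div_nonneg (by linarith) hL.le
    · have : y / L - x / q = (q * y - L * x) / (L * q) := by field_simp
      rw [this]
      exact div_nonneg (by linarith) (by positivity)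
    · exact div_nonneg hx hq.le
    · field_simp; ring
    · field_simp; ring

theorem t3 (O u v : E2) (q L d : ℝ) (_hq : 0 < q) (hL : 0 < L) (hd : 0 < d) :
    TriOf (O + (q + L + d) • u + (0 : ℝ) • v) (O + (q + d) • u + L • v) (O + q • u + L • v) =
    Reg O u v (fun x y => y ≤ L ∧ x + y ≤ q + L + d ∧ L * (q + L + d) ≤ L * x + (L + d) * y) := by
  apply triReg
  · intro α β γ hα hβ hγ hs
    refine ⟨by nlinarith [mul_nonneg hα hL.le], ?_, ?_⟩
    · have : α * (q + L + d) + β * (q + d) + γ * q + (α * 0 + β * L + γ * L) =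
        (α + β + γ) * (q + L + d) - γ * d := by ring
      rw [this, hs]; nlinarith [mul_nonneg hγ hd.le]
    · have : L * (α * (q + L + d) + β * (q + d) + γ * q) + (L + d) * (α * 0 + β * L + γ * L) =
        (α + β + γ) * (L * (q + L + d)) + β * (L * d) := by ring
      rw [this, hs]; nlinarith [mul_nonneg hβ (mul_nonneg hL.le hd.le)]
  · rintro x y ⟨hy, h1, h2⟩
    refine ⟨1 - y / L, (L * x + (L + d) * y - L * (q + L + d)) / (L * d), (q + L + d - x - y) / d, ?_, ?_, ?_, ?_, ?_, ?_⟩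
    · have : 1 - y / L = (L - y) / L := by field_simp
      rw [this]
      exact div_nonneg (by linarith) hL.le
    · exact div_nonneg (by linarith) (by positivity)
    · exact div_nonneg (by linarith) hd.le
    · field_simp; ring
    · field_simp; ring
    · field_simp; ring

theorem regUnion (O u v : E2) (S1 S2 : ℝ → ℝ → Prop) :
    Reg O u v S1 ∪ Reg O u v S2 = Reg O u v (fun x y => S1 x y ∨ S2 x y) := by
  ext p
  constructor
  · rintro (⟨x, y, h, e⟩ | ⟨x, y, h, e⟩)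
    · exact ⟨x, y, Or.inl h, e⟩
    · exact ⟨x, y, Or.inr h, e⟩
  · rintro ⟨x, y, h | h, e⟩
    · exact Or.inl ⟨x, y, h, e⟩
    · exact Or.inr ⟨x, y, h, e⟩

theorem regCongr (O u v : E2) (S1 S2 : ℝ → ℝ → Prop) (h : ∀ x y, S1 x y ↔ S2 x y) :
    Reg O u v S1 = Reg O u v S2 := by
  ext p
  constructor
  · rintro ⟨x, y, h', e⟩
    exact ⟨x, y, (h x y).1 h', e⟩
  · rintro ⟨x, y, h', e⟩
    exact ⟨x, y, (h x y).2 h', e⟩

theorem parReg (O u v : E2) (P M L : ℝ) (hM : 0 < M) (hL : 0 < L) (U V : E2) (hU : U = M • u) (hV : V = L • (v - u)) :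
    Par (O + P • u) U V = Reg O u v (fun x y => 0 ≤ y ∧ y ≤ L ∧ P ≤ x + y ∧ x + y ≤ P + M) := by
  subst hU; subst hV
  ext p
  constructor
  · rintro ⟨s, t, hs0, hs1, ht0, ht1, rfl⟩
    refine ⟨P + s * M - t * L, t * L, ⟨by positivity, by nlinarith, by nlinarith [mul_nonneg hs0 hM.le], by nlinarith⟩, ?_⟩
    module
  · rintro ⟨x, y, ⟨h0, h1, h2, h3⟩, rfl⟩
    refine ⟨(x + y - P) / M, y / L, div_nonneg (by linarith) hM.le, (div_le_one hM).2 (by linarith),
      div_nonneg h0 hL.le, (div_le_one hL).2 h1, ?_⟩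
    rw [smul_smul, smul_smul, div_mul_cancel₀ _ hM.ne', div_mul_cancel₀ _ hL.ne']
    module

theorem wEq (q l d : ℝ) (hq0 : 0 < q) (hl0 : 0 < l) (hd0 : 0 < d) : ∀ x y : ℝ, ((0 ≤ x ∧ y ≤ l ∧ l * x ≤ q * y) ∨
    (0 ≤ y ∧ q * y ≤ l * x ∧ l * x + (l + d) * y ≤ l * (q + l + d)) ∨
    (y ≤ l ∧ x + y ≤ q + l + d ∧ l * (q + l + d) ≤ l * x + (l + d) * y)) ↔
    (0 ≤ x ∧ 0 ≤ y ∧ y ≤ l ∧ x + y ≤ q + l + d) := by
  intro x y
  constructor
  · rintro (⟨p1, p2, p3⟩ | ⟨p1, p2, p3⟩ | ⟨p1, p2, p3⟩)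
    · have hy : 0 ≤ y := by
        by_contra hy
        push Not at hy
        nlinarith [mul_nonneg hl0.le p1, mul_pos hq0 (neg_pos.2 hy)]
      refine ⟨p1, hy, p2, ?_⟩
      have : l * x ≤ l * q := by nlinarith [mul_le_mul_of_nonneg_left p2 hq0.le]
      have := le_of_mul_le_mul_left this hl0
      linarith
    · have hx : 0 ≤ x := by
        by_contra hx
        push Not at hx
        nlinarith [mul_nonneg hq0.le p1, mul_pos hl0 (neg_pos.2 hx)]
      refine ⟨hx, p1, ?_, ?_⟩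
      · have : (q + l + d) * y ≤ (q + l + d) * l := by nlinarith
        exact le_of_mul_le_mul_left this (by linarith)
      · have : l * (x + y) ≤ l * (q + l + d) := by nlinarith [mul_nonneg hd0.le p1]
        exact le_of_mul_le_mul_left this hl0
    · have hy : 0 ≤ y := by
        have h6 : l * x ≤ l * (q + l + d - y) := mul_le_mul_of_nonneg_left (by linarith) hl0.le
        have : 0 ≤ d * y := by nlinarith
        by_contra hy
        push Not at hy
        nlinarith [mul_pos hd0 (neg_pos.2 hy)]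
      refine ⟨?_, hy, p1, p2⟩
      have : (l + d) * y ≤ (l + d) * l := mul_le_mul_of_nonneg_left p1 (by linarith)
      have h7 : 0 ≤ l * x := by nlinarith [mul_pos hl0 hq0]
      by_contra hx
      push Not at hx
      nlinarith [mul_pos hl0 (neg_pos.2 hx)]
  · rintro ⟨p1, p2, p3, p4⟩
    rcases le_total (l * x) (q * y) with h | h
    · exact Or.inl ⟨p1, p3, h⟩
    · rcases le_total (l * x + (l + d) * y) (l * (q + l + d)) with h' | h'
      · exact Or.inr (Or.inl ⟨p2, h, h'⟩)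
      · exact Or.inr (Or.inr ⟨p3, p4, h'⟩)

set_option maxHeartbeats 1000000 in
theorem t_ROW (h1 : S_GLUE) (h2 : S_TRIK) (h3 : S_PARA) : S_ROW := by
  intro e a b c la n he ha hb hc hla hcc O u v hu hv huv l t hl ht
  have hlin := lin u v hu hv huv
  have ha' : (0 : ℝ) < a := by exact_mod_cast ha
  have hb' : (0 : ℝ) < b := by exact_mod_cast hb
  have hc' : (0 : ℝ) < c := by exact_mod_cast hc
  have hla' : (0 : ℝ) < la := by exact_mod_cast hla
  have hcc' : (c : ℝ) ^ 2 = a ^ 2 + a * b + b ^ 2 := by exact_mod_cast hcc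
  obtain ⟨q, hq⟩ : ∃ q : ℝ, q = e * (la * b ^ 2) := ⟨_, rfl⟩
  obtain ⟨d, hd⟩ : ∃ d : ℝ, d = e * (la * a ^ 2) := ⟨_, rfl⟩
  have hq0 : 0 < q := by rw [hq]; positivity
  have hd0 : 0 < d := by rw [hd]; positivity
  have hl0 : 0 < l := by rw [hl]; positivity
  have hP : q + l + d = e * (la * c ^ 2) := by rw [hcc', hq, hl, hd]; ring
  have k1 : (0 : ℕ) < la * c := Nat.mul_pos hla hc
  have k2 : (0 : ℕ) < la * b := Nat.mul_pos hla hb
  have k3 : (0 : ℕ) < la * a := Nat.mul_pos hla ha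
  -- the three triangles
  have T1 := h2 (e * a) (e * b) (e * c) (la * c) k1 (O + (0 : ℝ) • u + (0 : ℝ) • v) (O + (q + l + d) • u + (0 : ℝ) • v)
    (O + q • u + l • v) (aff O u v hlin _ _ _ _ _ _ (by
      have : 0 < (q + l + d) * l := by positivity
      intro h; nlinarith)) (Or.inl ⟨?_, ?_, ?_⟩)
  rotate_left
  · apply dst O u v hu hv huv _ _ _ _ _ (by positivity)
    push_cast
    rw [show q + l + d - q = l + d by ring, hl, hd]
    linear_combination (- (e * la * a) ^ 2) * hcc'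
  · apply dst O u v hu hv huv _ _ _ _ _ (by positivity)
    push_cast
    rw [hl, hq]
    linear_combination (- (e * la * b) ^ 2) * hcc'
  · apply dst O u v hu hv huv _ _ _ _ _ (by positivity)
    push_cast
    rw [hP]; ring
  have T2 := h2 (e * a) (e * b) (e * c) (la * b) k2 (O + (0 : ℝ) • u + (0 : ℝ) • v) (O + (0 : ℝ) • u + l • v)
    (O + q • u + l • v) (aff O u v hlin _ _ _ _ _ _ (by
      have : 0 < q * l := by positivity
      intro h; nlinarith)) (Or.inr (Or.inr (Or.inr (Or.inl ⟨?_, ?_, ?_⟩))))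
  rotate_left
  · apply dst O u v hu hv huv _ _ _ _ _ (by positivity)
    push_cast
    rw [hq]; ring
  · apply dst O u v hu hv huv _ _ _ _ _ (by positivity)
    push_cast
    rw [hl, hq]
    linear_combination (- (e * la * b) ^ 2) * hcc'
  · apply dst O u v hu hv huv _ _ _ _ _ (by positivity)
    push_cast
    rw [hl]; ring
  have T3 := h2 (e * a) (e * b) (e * c) (la * a) k3 (O + (q + l + d) • u + (0 : ℝ) • v) (O + (q + d) • u + l • v)
    (O + q • u + l • v) (aff O u v hlin _ _ _ _ _ _ (by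
      have : 0 < d * l := by positivity
      intro h; nlinarith)) (Or.inr (Or.inl ⟨?_, ?_, ?_⟩))
  rotate_left
  · apply dst O u v hu hv huv _ _ _ _ _ (by positivity)
    push_cast
    rw [hd]; ring
  · apply dst O u v hu hv huv _ _ _ _ _ (by positivity)
    push_cast
    rw [show q + l + d - q = l + d by ring, hl, hd]
    linear_combination (- (e * la * a) ^ 2) * hcc'
  · apply dst O u v hu hv huv _ _ _ _ _ (by positivity)
    push_cast
    rw [show q + l + d - (q + d) = l by ring, hl]; ring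
  rw [t1 O u v q l d hq0 hl0 hd0] at T1
  rw [t2 O u v q l hq0 hl0] at T2
  rw [t3 O u v q l d hq0 hl0 hd0] at T3
  have G1 := h1 _ _ _ _ _ T1 T3 (disj O u v hlin _ _ l (l + d) (l * (q + l + d)) (Or.inl hl0.ne')
    (fun x y h => h.2.2) (fun x y h => h.2.2))
  rw [regUnion] at G1
  have G2 := h1 _ _ _ _ _ T2 G1 (disj O u v hlin _ _ l (-q) 0 (Or.inl hl0.ne')
    (fun x y h => by linarith [h.2.2]) (fun x y h => by
      rcases h with h | h
      · linarith [h.2.1]
      · have := mul_le_mul_of_nonneg_left h.1 (by linarith : (0:ℝ) ≤ l + d)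
        have h5 := mul_le_mul_of_nonneg_left h.1 hq0.le
        nlinarith [h.2.2]))
  rw [regUnion] at G2
  have hW := wEq q l d hq0 hl0 hd0
  rw [regCongr O u v _ _ hW] at G2
  rcases Nat.eq_zero_or_pos n with hn | hn
  · subst hn
    have htl : t + l = q + l + d := by rw [ht, hl, hq, hd]; push_cast; ring
    rw [htl]
    have : {p | ∃ x y : ℝ, 0 ≤ x ∧ 0 ≤ y ∧ y ≤ l ∧ x + y ≤ q + l + d ∧ p = O + x • u + y • v} =
        Reg O u v (fun x y => 0 ≤ x ∧ 0 ≤ y ∧ y ≤ l ∧ x + y ≤ q + l + d) := by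
      ext p
      simp only [Reg, Set.mem_setOf_eq, and_assoc]
    rw [this]
    exact G2
  · have hn' : (0 : ℝ) < n := by exact_mod_cast hn
    have hM0 : 0 < e * (n * b) := by positivity
    have hAI : AffineIndependent ℝ ![0, (e * b) • u, (e * a) • (v - u)] := by
      have := aff (0 : E2) u v hlin 0 0 (e * b) 0 (-(e * a)) (e * a) (by
        have : 0 < (e * b) * (e * a) := by positivity
        intro h; nlinarith)
      rw [show (e * a) • (v - u) = 0 + (-(e * a)) • u + (e * a) • v by module,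
        show (e * b) • u = 0 + (e * b) • u + (0 : ℝ) • v by module]
      simpa using this
    have T4 := h3 (e * a) (e * b) (e * c) n (la * b) hn k2 (O + (q + l + d) • u) ((e * b) • u) ((e * a) • (v - u)) hAI
      (Or.inr (Or.inr (Or.inl ⟨?_, ?_, ?_⟩)))
    rotate_left
    · rw [norm_smul, hu, mul_one, Real.norm_eq_abs, abs_of_pos (by positivity)]
    · rw [norm_smul, norm_sub_rev, huv, mul_one, Real.norm_eq_abs, abs_of_pos (by positivity)]
    · rw [show (e * b) • u - (e * a) • (v - u) = (e * b + e * a) • u + (-(e * a)) • v by module]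
      apply nrm u v hu hv huv _ _ _ (by positivity)
      linear_combination (- e ^ 2) * hcc'
    rw [parReg O u v (q + l + d) (e * (n * b)) l hM0 hl0 _ _ (by rw [smul_smul]; congr 1; ring)
      (by rw [smul_smul, hl]; congr 1; push_cast; ring)] at T4
    have G3 := h1 _ _ _ _ _ G2 T4 (disj O u v hlin _ _ 1 1 (q + l + d) (Or.inl one_ne_zero)
      (fun x y h => by linarith [h.2.2.2]) (fun x y h => by linarith [h.2.2.1]))
    rw [regUnion] at G3
    have htl : t + l = q + l + d + e * (n * b) := by rw [ht, hl, hq, hd]; ring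
    rw [htl]
    have hfin : {p | ∃ x y : ℝ, 0 ≤ x ∧ 0 ≤ y ∧ y ≤ l ∧ x + y ≤ q + l + d + e * (n * b) ∧ p = O + x • u + y • v} =
        Reg O u v (fun x y => (0 ≤ x ∧ 0 ≤ y ∧ y ≤ l ∧ x + y ≤ q + l + d) ∨
          (0 ≤ y ∧ y ≤ l ∧ q + l + d ≤ x + y ∧ x + y ≤ q + l + d + e * (n * b))) := by
      ext p
      simp only [Reg, Set.mem_setOf_eq]
      constructor
      · rintro ⟨x, y, p1, p2, p3, p4, p5⟩
        refine ⟨x, y, ?_, p5⟩
        rcases le_total (x + y) (q + l + d) with h | h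
        · exact Or.inl ⟨p1, p2, p3, h⟩
        · exact Or.inr ⟨p2, p3, h, p4⟩
      · rintro ⟨x, y, (⟨p1, p2, p3, p4⟩ | ⟨p2, p3, p1, p4⟩), p5⟩
        · exact ⟨x, y, p1, p2, p3, by linarith, p5⟩
        · exact ⟨x, y, by linarith, p2, p3, p4, p5⟩
    rw [hfin]
    exact G3

end Q16.SQ.T194
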