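import Pool.Agent.Q82.BB.Stm

/-!
# Job BB-NB: the nonlinear part is admissible
-/

set_option autoImplicit false

open MeasureTheory Filter Topology Set

namespace Pool.Agent.Q82.BB

/-- a chain of derivatives -/
lemma nb_chain {f : ℕ → ℝ → ℂ} (h : ∀ i x, HasDerivAt (f i) (f (i + 1) x) x) :
    (∀ i, iteratedDeriv i (f 0) = f i) ∧ ∀ n : ℕ, ContDiff ℝ n (f 0) := by
  have h1 : ∀ i, iteratedDeriv i (f 0) = f i := by
    intro i
    induction i with
    | zero => exact iteratedDeriv_zero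
    | succ i ih =>
      rw [iteratedDeriv_succ, ih]
      funext x
      exact (h i x).deriv
  refine ⟨h1, fun n => ?_⟩
  refine contDiff_of_differentiable_iteratedDeriv (n := (n : ℕ∞)) fun m _ => ?_
  rw [h1 m]
  exact fun x => (h m x).differentiableAt

/-- parametric integrals over a compact interval -/
lemma nb_param {D : ℕ → ℝ → ℝ → ℝ → ℂ} {T : ℝ}
    (hc : ∀ i, Continuous fun q : ℝ × ℝ × ℝ => D i q.1 q.2.1 q.2.2)
    (hd : ∀ i ξ τ s, HasDerivAt (fun ξ => D i ξ τ s) (D (i + 1) ξ τ s) ξ) :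
    (∀ i, Continuous fun q : ℝ × ℝ => ∫ s in (0 : ℝ)..T, D i q.1 q.2 s) ∧
    ∀ i ξ τ, HasDerivAt (fun ξ => ∫ s in (0 : ℝ)..T, D i ξ τ s)
      (∫ s in (0 : ℝ)..T, D (i + 1) ξ τ s) ξ := by
  constructor
  · intro i
    refine intervalIntegral.continuous_parametric_intervalIntegral_of_continuous'
      (f := fun (q : ℝ × ℝ) (s : ℝ) => D i q.1 q.2 s) ?_ _ _
    exact (hc i).comp (by fun_prop : Continuous fun q : (ℝ × ℝ) × ℝ => (q.1.1, q.1.2, q.2))
  · intro i ξ τ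
    have hcs : ∀ i ξ, Continuous fun s => D i ξ τ s := fun i ξ =>
      (hc i).comp (by fun_prop : Continuous fun s : ℝ => (ξ, τ, s))
    have hK : IsCompact ((Icc (ξ - 1) (ξ + 1)) ×ˢ (uIcc (0 : ℝ) T)) := isCompact_Icc.prod isCompact_uIcc
    obtain ⟨C, hC⟩ := hK.exists_bound_of_continuousOn
      (f := fun q : ℝ × ℝ => D (i + 1) q.1 τ q.2)
      ((hc (i + 1)).comp (by fun_prop : Continuous fun q : ℝ × ℝ => (q.1, τ, q.2))).continuousOn
    refine (intervalIntegral.hasDerivAt_integral_of_dominated_loc_of_deriv_le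
      (F := fun ξ s => D i ξ τ s) (F' := fun ξ s => D (i + 1) ξ τ s) (bound := fun _ => C)
      (s := Icc (ξ - 1) (ξ + 1)) (Icc_mem_nhds (by linarith) (by linarith)) ?_
      ((hcs i ξ).intervalIntegrable _ _) ((hcs (i + 1) ξ).aestronglyMeasurable) ?_
      intervalIntegrable_const ?_).2
    · exact Eventually.of_forall fun x => (hcs i x).aestronglyMeasurable
    · exact ae_of_all _ fun s hs x hx => hC (x, s) ⟨hx, uIoc_subset_uIcc hs⟩
    · exact ae_of_all _ fun s _ x _ => hd i x τ s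

theorem nb (h1 : S_CVB) (h2 : S_CVD) (h3 : S_TI) : S_NB := by
  intro T p κ hT hκ
  obtain ⟨K, hK, hCV⟩ := h1 p
  obtain ⟨KT, hKT, hTI⟩ := h3 T hT
  obtain ⟨kd, kc, -, kb⟩ := hκ
  choose Ck hCk0 hCk using kb
  refine ⟨Ck 0 * K * KT, fun i => K * KT * ∑ j ∈ Finset.range i, (i.choose (i - j) : ℝ) * Ck (i - j),
    by have := hCk0 0; positivity, fun i => ?_, ?_⟩
  · have : 0 ≤ ∑ j ∈ Finset.range i, (i.choose (i - j) : ℝ) * Ck (i - j) :=
      Finset.sum_nonneg fun j _ => mul_nonneg (Nat.cast_nonneg _) (hCk0 _).le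
    positivity
  intro w Cs hw
  obtain ⟨cd, cder, cc⟩ := h2 T p w Cs hT hw
  obtain ⟨wd, wc, w0', wb⟩ := hw
  -- the projection to `[0, T]`
  obtain ⟨pr, hprc, hpr, hpr1⟩ : ∃ pr : ℝ → ℝ, Continuous pr ∧ (∀ s, pr s ∈ Icc 0 T) ∧
      ∀ s ∈ Icc 0 T, pr s = s := by
    refine ⟨fun s => max 0 (min s T), by fun_prop, fun s => ⟨le_max_left _ _, ?_⟩, fun s hs => ?_⟩
    · exact max_le hT.le (min_le_right _ _)
    · show max 0 (min s T) = s
      rw [min_eq_left hs.2, max_eq_right hs.1]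
  -- the integrand
  let F : ℝ → ℝ → ℝ → ℂ := fun ξ τ s => (κ ξ τ s : ℂ) * cv w w ξ (pr s)
  let D : ℕ → ℝ → ℝ → ℝ → ℂ := fun i ξ τ s => iteratedDeriv i (fun ξ => F ξ τ s) ξ
  have kdc : ∀ τ s : ℝ, ∀ n : ℕ, ContDiff ℝ n (fun ξ => (κ ξ τ s : ℂ)) := fun τ s n =>
    Complex.ofRealCLM.contDiff.comp (kd τ s n)
  have hF : ∀ τ s : ℝ, ∀ n : ℕ, ContDiff ℝ n (fun ξ => F ξ τ s) := fun τ s n =>
    (kdc τ s n).mul (cd _ (hpr s) n)
  have hkder : ∀ (i : ℕ) (τ s ξ : ℝ), iteratedDeriv i (fun ξ => (κ ξ τ s : ℂ)) ξ =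
      ((iteratedDeriv i (fun ξ => κ ξ τ s) ξ : ℝ) : ℂ) := by
    intro i τ s
    induction i with
    | zero => intro ξ; rw [iteratedDeriv_zero, iteratedDeriv_zero]
    | succ i ih =>
      intro ξ
      have e : iteratedDeriv i (fun ξ => (κ ξ τ s : ℂ)) =
          fun ξ => ((iteratedDeriv i (fun ξ => κ ξ τ s) ξ : ℝ) : ℂ) := funext ih
      rw [iteratedDeriv_succ, e]
      have h4 : Differentiable ℝ (iteratedDeriv i (fun ξ => κ ξ τ s)) :=
        (kd τ s (i + 1)).differentiable_iteratedDeriv i (by exact_mod_cast Nat.lt_succ_self i)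
      have h5 := (h4 ξ).hasDerivAt
      rw [← iteratedDeriv_succ] at h5
      exact h5.ofReal_comp.deriv
  have hD : ∀ (i : ℕ) (ξ τ s : ℝ), D i ξ τ s = ∑ j ∈ Finset.range (i + 1),
      (i.choose j : ℂ) * ((iteratedDeriv j (fun ξ => κ ξ τ s) ξ : ℝ) : ℂ) *
        iteratedDeriv (i - j) (fun ξ => cv w w ξ (pr s)) ξ := by
    intro i ξ τ s
    have := iteratedDeriv_mul (𝕜 := ℝ) (n := i) (x := ξ) (kdc τ s i).contDiffAt
      (cd _ (hpr s) i).contDiffAt
    change iteratedDeriv i ((fun ξ => (κ ξ τ s : ℂ)) * fun ξ => cv w w ξ (pr s)) ξ = _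
    rw [this]
    exact Finset.sum_congr rfl fun j _ => by rw [hkder]
  have hDc : ∀ i, Continuous fun q : ℝ × ℝ × ℝ => D i q.1 q.2.1 q.2.2 := by
    intro i
    simp only [hD]
    refine continuous_finset_sum _ fun j _ => ?_
    refine (continuous_const.mul (Complex.continuous_ofReal.comp (kc j))).mul ?_
    have := (cc (i - j)).comp_continuous (f := fun q : ℝ × ℝ × ℝ => (q.1, pr q.2.2)) (by fun_prop)
      (fun q => ⟨mem_univ _, hpr _⟩)
    exact this
  have hDd : ∀ i ξ τ s, HasDerivAt (fun ξ => D i ξ τ s) (D (i + 1) ξ τ s) ξ := by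
    intro i ξ τ s
    have h4 : Differentiable ℝ (iteratedDeriv i (fun ξ => F ξ τ s)) :=
      (hF τ s (i + 1)).differentiable_iteratedDeriv i (by exact_mod_cast Nat.lt_succ_self i)
    have h5 := (h4 ξ).hasDerivAt
    rw [← iteratedDeriv_succ] at h5
    exact h5
  obtain ⟨pc, pd⟩ := nb_param (T := T) hDc hDd
  have hN : ∀ τ, (fun ξ => Nl T κ w ξ τ) = fun ξ => ∫ s in (0 : ℝ)..T, D 0 ξ τ s := by
    intro τ
    funext ξ
    refine intervalIntegral.integral_congr fun s hs => ?_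
    rw [uIcc_of_le hT.le] at hs
    simp only [D, F, iteratedDeriv_zero, hpr1 s hs]
  have hch : ∀ τ, _ := fun τ => nb_chain (f := fun i ξ => ∫ s in (0 : ℝ)..T, D i ξ τ s)
    (fun i ξ => pd i ξ τ)
  have hder : ∀ (i : ℕ) (ξ τ : ℝ), iteratedDeriv i (fun ξ => Nl T κ w ξ τ) ξ =
      ∫ s in (0 : ℝ)..T, D i ξ τ s := by
    intro i ξ τ
    rw [hN τ, (hch τ).1 i]
  refine ⟨fun τ _ n => by rw [hN τ]; exact (hch τ).2 n, fun i => ?_, fun i ξ τ hτ => ?_⟩
  · simp only [hder]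
    exact (pc i).continuousOn
  · rw [hder]
    have hx : 0 < 1 + |ξ| := by positivity
    have hp0 : 0 < (1 + |ξ|) ^ p := by positivity
    obtain ⟨S, hS⟩ : ∃ S, S = ∑ j ∈ Finset.range (i + 1), (i.choose j : ℝ) * (Ck j * Cs (i - j)) :=
      ⟨_, rfl⟩
    have hcv : ∀ m : ℕ, ∀ s ∈ Icc 0 T, ‖iteratedDeriv m (fun ξ => cv w w ξ s) ξ‖ ≤
        K * Cs 0 * Cs m * (ex ξ s / (1 + |ξ|) ^ p) := by
      intro m s hs
      rw [cder m s hs]
      refine (hCV (fun η => w η s) (iteratedDeriv m (fun ξ => w ξ s)) (Cs 0) (Cs m) s hs.1 (w0' 0)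
        (w0' m) (wd s hs 0).continuous ?_ (fun ξ => ?_) (fun ξ => wb m ξ s hs) ξ).2
      · exact (wd s hs m).continuous_iteratedDeriv m le_rfl
      · have := wb 0 ξ s hs
        rwa [iteratedDeriv_zero] at this
    have hpt : ∀ s ∈ Icc 0 T, ‖D i ξ τ s‖ ≤ S * K * Cs 0 / (1 + |ξ|) ^ p *
        (Real.exp (-(ξ ^ 2 * |τ - s| / 4)) * ex ξ s) := by
      intro s hs
      rw [hD]
      refine (norm_sum_le _ _).trans ?_
      rw [hS, Finset.sum_mul, Finset.sum_mul, Finset.sum_div, Finset.sum_mul]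
      refine Finset.sum_le_sum fun j _ => ?_
      rw [hpr1 s hs, norm_mul, norm_mul, Complex.norm_natCast, Complex.norm_real, Real.norm_eq_abs]
      have a1 := hCk j ξ τ hτ s hs
      have a2 := hcv (i - j) s hs
      have a3 : 0 ≤ Ck j * Real.exp (-(ξ ^ 2 * |τ - s| / 4)) :=
        mul_nonneg (hCk0 j).le (Real.exp_pos _).le
      calc (i.choose j : ℝ) * |iteratedDeriv j (fun ξ => κ ξ τ s) ξ| *
            ‖iteratedDeriv (i - j) (fun ξ => cv w w ξ s) ξ‖ ≤
          (i.choose j : ℝ) * (Ck j * Real.exp (-(ξ ^ 2 * |τ - s| / 4))) *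
            (K * Cs 0 * Cs (i - j) * (ex ξ s / (1 + |ξ|) ^ p)) :=
            mul_le_mul (mul_le_mul_of_nonneg_left a1 (Nat.cast_nonneg _)) a2 (norm_nonneg _)
              (mul_nonneg (Nat.cast_nonneg _) a3)
        _ = _ := by ring
    have hex : Continuous fun s => Real.exp (-(ξ ^ 2 * |τ - s| / 4)) * ex ξ s := by
      unfold ex
      fun_prop
    have hint : ‖∫ s in (0 : ℝ)..T, D i ξ τ s‖ ≤ ∫ s in (0 : ℝ)..T, S * K * Cs 0 / (1 + |ξ|) ^ p *
        (Real.exp (-(ξ ^ 2 * |τ - s| / 4)) * ex ξ s) :=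
      intervalIntegral.norm_integral_le_of_norm_le hT.le
        (ae_of_all _ fun s hs => hpt s ⟨hs.1.le, hs.2⟩)
        ((continuous_const.mul hex).intervalIntegrable _ _)
    rw [intervalIntegral.integral_const_mul] at hint
    have hS0 : 0 ≤ S := by
      rw [hS]
      exact Finset.sum_nonneg fun j _ => mul_nonneg (Nat.cast_nonneg _)
        (mul_nonneg (hCk0 j).le (w0' _))
    have hc0 := w0' 0
    have hq0 : 0 ≤ S * K * Cs 0 / (1 + |ξ|) ^ p := by positivity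
    have hfin := hint.trans (mul_le_mul_of_nonneg_left (hTI ξ τ hτ) hq0)
    have hex0 : 0 ≤ ex ξ τ := (Real.exp_pos _).le
    have hSle : S ≤ Ck 0 * Cs i + (∑ j ∈ Finset.range i, (i.choose (i - j) : ℝ) * Ck (i - j)) *
        ∑ j ∈ Finset.range i, Cs j := by
      have e1 : S = ∑ k ∈ Finset.range (i + 1), (i.choose (i - k) : ℝ) * (Ck (i - k) * Cs k) := by
        rw [hS, ← Finset.sum_flip]
        refine Finset.sum_congr rfl fun k hk => ?_
        have hk' : k ≤ i := Nat.lt_succ_iff.1 (Finset.mem_range.1 hk)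
        rw [Nat.sub_sub_self hk']
      rw [e1, Finset.sum_range_succ, Nat.sub_self, Nat.choose_zero_right, Nat.cast_one, one_mul,
        add_comm, Finset.sum_mul]
      refine add_le_add le_rfl (Finset.sum_le_sum fun k hk => ?_)
      have b1 : Cs k ≤ ∑ j ∈ Finset.range i, Cs j :=
        Finset.single_le_sum (f := Cs) (fun j _ => w0' j) hk
      have b2 : 0 ≤ (i.choose (i - k) : ℝ) * Ck (i - k) :=
        mul_nonneg (Nat.cast_nonneg _) (hCk0 _).le
      calc (i.choose (i - k) : ℝ) * (Ck (i - k) * Cs k) =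
          (i.choose (i - k) : ℝ) * Ck (i - k) * Cs k := by ring
        _ ≤ _ := mul_le_mul_of_nonneg_left b1 b2
    calc _ ≤ S * K * Cs 0 / (1 + |ξ|) ^ p * (KT * (ex ξ τ / (1 + |ξ|) ^ 2)) := hfin
      _ = S * (Cs 0 * (K * KT) * (ex ξ τ / (1 + |ξ|) ^ (p + 2))) := by
        rw [pow_add]
        field_simp
      _ ≤ (Ck 0 * Cs i + (∑ j ∈ Finset.range i, (i.choose (i - j) : ℝ) * Ck (i - j)) *
          ∑ j ∈ Finset.range i, Cs j) * (Cs 0 * (K * KT) * (ex ξ τ / (1 + |ξ|) ^ (p + 2))) :=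
        mul_le_mul_of_nonneg_right hSle (by positivity)
      _ = _ := by ring

end Pool.Agent.Q82.BB
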