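import Pool.Agent.Q82.BC.Stm

/-!
# Project BC, part FIX2: the fixed point at the critical scaling
-/

set_option autoImplicit false

open MeasureTheory Filter Topology Set
open Pool.Agent.Q82.BB (chi mu lam IsSh cv Nl Good UU Tower)

namespace Pool.Agent.Q82.BC

/-- The iterates. -/
noncomputable def fix2_W (T : ℝ) (κ : ℝ → ℝ → ℝ → ℝ) (ε : ℝ) : ℕ → ℝ → ℝ → ℂ
  | 0 => w02 ε
  | n + 1 => fun ξ τ => w02 ε ξ τ + Nl T κ (fix2_W T κ ε n) ξ τ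

/-- Partial sums of the constants. -/
noncomputable def fix2_S (A K1 : ℕ → ℝ) (ε d : ℝ) : ℕ → ℝ
  | 0 => 0
  | n + 1 => fix2_S A K1 ε d n + 2 * (ε * (A n + 1) + d * (K1 n * fix2_S A K1 ε d n))

/-- The uniform constants. -/
noncomputable def fix2_D (A K1 : ℕ → ℝ) (ε d : ℝ) (i : ℕ) : ℝ :=
  2 * (ε * (A i + 1) + d * (K1 i * fix2_S A K1 ε d i))

lemma fix2_sum (A K1 : ℕ → ℝ) (ε d : ℝ) (n : ℕ) :
    ∑ j ∈ Finset.range n, fix2_D A K1 ε d j = fix2_S A K1 ε d n := by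
  induction n with
  | zero => simp [fix2_S]
  | succ n ih => rw [Finset.sum_range_succ, ih]; rfl

lemma fix2_S_nonneg (A K1 : ℕ → ℝ) (ε d : ℝ) (hA : ∀ i, 0 ≤ A i) (hK : ∀ i, 0 ≤ K1 i)
    (hε : 0 ≤ ε) (hd : 0 ≤ d) (n : ℕ) : 0 ≤ fix2_S A K1 ε d n := by
  induction n with
  | zero => simp [fix2_S]
  | succ n ih =>
    have := hA n
    have := hK n
    simp only [fix2_S]
    positivity

lemma fix2_D_nonneg (A K1 : ℕ → ℝ) (ε d : ℝ) (hA : ∀ i, 0 ≤ A i) (hK : ∀ i, 0 ≤ K1 i)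
    (hε : 0 ≤ ε) (hd : 0 ≤ d) (n : ℕ) : 0 ≤ fix2_D A K1 ε d n := by
  have := fix2_S_nonneg A K1 ε d hA hK hε hd n
  have := hA n
  have := hK n
  unfold fix2_D
  positivity

lemma fix2_g_nonneg (ξ τ : ℝ) : 0 ≤ (1 + |ξ|) * er ξ τ := by
  unfold er
  positivity

lemma fix2_er_le {a : ℝ} (ha : 0 < a) (ξ : ℝ) {τ : ℝ} (hτ : a ≤ τ) :
    (1 + |ξ|) * er ξ τ ≤ 1 + 16 / Real.sqrt a := by
  have hs : 0 < Real.sqrt a := Real.sqrt_pos.2 ha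
  have hs2 : Real.sqrt a ≤ Real.sqrt τ := Real.sqrt_le_sqrt hτ
  have hx := abs_nonneg ξ
  have h1 : er ξ τ ≤ Real.exp (-(Real.sqrt a * |ξ| / 16)) := by
    unfold er
    apply Real.exp_le_exp.2
    have := mul_le_mul_of_nonneg_right hs2 hx
    linarith
  have h2 : er ξ τ ≤ 1 := by
    unfold er
    apply Real.exp_le_one_iff.2
    have := mul_nonneg (Real.sqrt_nonneg τ) hx
    linarith
  have h3 : |ξ| * Real.exp (-(Real.sqrt a * |ξ| / 16)) ≤ 16 / Real.sqrt a := by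
    have h4 : Real.sqrt a * |ξ| / 16 + 1 ≤ Real.exp (Real.sqrt a * |ξ| / 16) :=
      Real.add_one_le_exp _
    have h5 : Real.exp (-(Real.sqrt a * |ξ| / 16)) * Real.exp (Real.sqrt a * |ξ| / 16) = 1 := by
      rw [← Real.exp_add]; simp
    have h6 := Real.exp_pos (-(Real.sqrt a * |ξ| / 16))
    rw [le_div_iff₀ hs]
    have h7 : (Real.sqrt a * |ξ| / 16) * Real.exp (-(Real.sqrt a * |ξ| / 16)) ≤ 1 := by
      rw [← h5, mul_comm (Real.exp (-(Real.sqrt a * |ξ| / 16)))]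
      exact mul_le_mul_of_nonneg_right (by linarith) h6.le
    nlinarith
  have h8 : |ξ| * er ξ τ ≤ |ξ| * Real.exp (-(Real.sqrt a * |ξ| / 16)) :=
    mul_le_mul_of_nonneg_left h1 hx
  linarith

lemma fix2_mono {T : ℝ} {w : ℝ → ℝ → ℂ} {Cs Ds : ℕ → ℝ} (h : Adm2 T w Cs)
    (hCD : ∀ i, Cs i ≤ Ds i) : Adm2 T w Ds := by
  refine ⟨h.1, h.2.1, fun i => (h.2.2.1 i).trans (hCD i), fun i ξ τ hτ => ?_⟩
  exact (h.2.2.2 i ξ τ hτ).trans (mul_le_mul_of_nonneg_right (hCD i) (fix2_g_nonneg ξ τ))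

lemma fix2_step {T : ℝ} {κ : ℝ → ℝ → ℝ → ℝ} {w0 w : ℝ → ℝ → ℂ} {As Bs Ds : ℕ → ℝ}
    (h0 : Adm2 T w0 As)
    (h1 : ∀ τ ∈ Ioc 0 T, ∀ n : ℕ, ContDiff ℝ n (fun ξ => Nl T κ w ξ τ))
    (h2 : ∀ i : ℕ, ContinuousOn (fun q : ℝ × ℝ => iteratedDeriv i (fun ξ => Nl T κ w ξ q.2) q.1)
      (univ ×ˢ Ioc 0 T))
    (h3 : ∀ i : ℕ, ∀ ξ : ℝ, ∀ τ ∈ Ioc 0 T, ‖iteratedDeriv i (fun ξ => Nl T κ w ξ τ) ξ‖ ≤
      Bs i * ((1 + |ξ|) * er ξ τ))
    (hB : ∀ i, As i + Bs i ≤ Ds i) (hD : ∀ i, 0 ≤ Ds i) :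
    Adm2 T (fun ξ τ => w0 ξ τ + Nl T κ w ξ τ) Ds := by
  have key : ∀ i : ℕ, ∀ ξ : ℝ, ∀ τ ∈ Ioc 0 T,
      iteratedDeriv i (fun ξ => w0 ξ τ + Nl T κ w ξ τ) ξ =
        iteratedDeriv i (fun ξ => w0 ξ τ) ξ + iteratedDeriv i (fun ξ => Nl T κ w ξ τ) ξ := by
    intro i ξ τ hτ
    exact iteratedDeriv_add ((h0.1 τ hτ i).contDiffAt) ((h1 τ hτ i).contDiffAt)
  refine ⟨fun τ hτ n => (h0.1 τ hτ n).add (h1 τ hτ n), ?_, hD, ?_⟩
  · intro i
    refine ((h0.2.1 i).add (h2 i)).congr ?_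
    rintro ⟨ξ, τ⟩ hq
    exact key i ξ τ hq.2
  · intro i ξ τ hτ
    rw [key i ξ τ hτ]
    refine (norm_add_le _ _).trans ?_
    have := h0.2.2.2 i ξ τ hτ
    have := h3 i ξ τ hτ
    have := mul_le_mul_of_nonneg_right (hB i) (fix2_g_nonneg ξ τ)
    linarith

lemma fix2_herm {T : ℝ} (hT : 0 < T) {κ : ℝ → ℝ → ℝ → ℝ} (hκ : ∀ ξ τ s, κ (-ξ) τ s = κ ξ τ s)
    {w : ℝ → ℝ → ℂ} (hw : ∀ ξ : ℝ, ∀ τ ∈ Ioc 0 T, w (-ξ) τ = (starRingEnd ℂ) (w ξ τ)) (ξ τ : ℝ) :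
    Nl T κ w (-ξ) τ = (starRingEnd ℂ) (Nl T κ w ξ τ) := by
  have h1 : ∀ s ∈ Ioc 0 T, cv w w (-ξ) s = (starRingEnd ℂ) (cv w w ξ s) := by
    intro s hs
    unfold cv
    rw [← integral_conj, ← integral_neg_eq_self]
    congr 1
    funext η
    rw [map_mul, hw η s hs, ← hw (ξ - η) s hs]
    congr 2
    ring
  unfold Nl
  rw [intervalIntegral.integral_of_le hT.le, intervalIntegral.integral_of_le hT.le,
    ← integral_conj]
  apply setIntegral_congr_fun measurableSet_Ioc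
  intro s hs
  simp only
  rw [h1 s hs, hκ, map_mul, Complex.conj_ofReal]

/-- The limit of the iterates. -/
lemma fix2_lim (hL : Pool.Agent.Q82.BB.S_LIM) {T : ℝ} (hT : 0 < T) (W : ℕ → ℝ → ℝ → ℂ)
    (D : ℕ → ℝ) (hW : ∀ n, Adm2 T (W n) D) (E : ℝ) (hE : 0 ≤ E)
    (hd : ∀ n : ℕ, ∀ ξ : ℝ, ∀ τ ∈ Ioc 0 T,
      ‖W (n + 1) ξ τ - W n ξ τ‖ ≤ E * (1 / 2) ^ n * ((1 + |ξ|) * er ξ τ)) :
    ∃ w : ℝ → ℝ → ℂ, Adm2 T w D ∧
      (∀ ξ : ℝ, ∀ τ ∈ Ioc 0 T, Tendsto (fun n => W n ξ τ) atTop (𝓝 (w ξ τ))) ∧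
      ∀ n : ℕ, ∀ ξ : ℝ, ∀ τ ∈ Ioc 0 T,
        ‖W n ξ τ - w ξ τ‖ ≤ 2 * E * (1 / 2) ^ n * ((1 + |ξ|) * er ξ τ) := by
  have hdist : ∀ ξ : ℝ, ∀ τ ∈ Ioc 0 T, ∀ n : ℕ,
      dist (W n ξ τ) (W (n + 1) ξ τ) ≤ (E * ((1 + |ξ|) * er ξ τ)) * (1 / 2) ^ n := by
    intro ξ τ hτ n
    rw [dist_comm, dist_eq_norm]
    have := hd n ξ τ hτ
    linarith
  have hconv : ∀ ξ : ℝ, ∀ τ ∈ Ioc 0 T,
      Tendsto (fun n => W n ξ τ) atTop (𝓝 (limUnder atTop (fun n => W n ξ τ))) := by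
    intro ξ τ hτ
    exact (cauchySeq_of_le_geometric (1 / 2) (E * ((1 + |ξ|) * er ξ τ)) (by norm_num)
      (hdist ξ τ hτ)).tendsto_limUnder
  set w : ℝ → ℝ → ℂ := fun ξ τ => limUnder atTop (fun n => W n ξ τ) with hw
  -- local limits
  have hloc : ∀ a : ℝ, 0 < a → a < T →
      (∀ τ ∈ Icc a T, ∀ m : ℕ, ContDiff ℝ m (fun ξ => w ξ τ)) ∧
      (∀ i : ℕ, ContinuousOn (fun q : ℝ × ℝ => iteratedDeriv i (fun ξ => w ξ q.2) q.1)
        (univ ×ˢ Icc a T)) ∧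
      ∀ i : ℕ, ∀ ξ : ℝ, ∀ τ ∈ Icc a T, Tendsto (fun n => iteratedDeriv i (fun ξ => W n ξ τ) ξ)
        atTop (𝓝 (iteratedDeriv i (fun ξ => w ξ τ) ξ)) := by
    intro a ha haT
    have hmem : ∀ s ∈ Icc (0 : ℝ) (T - a), a + s ∈ Ioc 0 T := by
      intro s hs
      exact ⟨by linarith [hs.1], by linarith [hs.2]⟩
    obtain ⟨v, hv1, hv2, hv3⟩ := hL (T - a) (fun n ξ s => W n ξ (a + s)) (by linarith)
      (fun n s hs m => (hW n).1 (a + s) (hmem s hs) m)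
      (by
        intro n i
        have hc : ContinuousOn (fun q : ℝ × ℝ => ((q.1, a + q.2) : ℝ × ℝ))
            (univ ×ˢ Icc 0 (T - a)) := by fun_prop
        exact ((hW n).2.1 i).comp hc (fun q hq => ⟨mem_univ _, hmem q.2 hq.2⟩))
      (by
        intro i
        refine ⟨D i * (1 + 16 / Real.sqrt a), fun n ξ s hs => ?_⟩
        refine ((hW n).2.2.2 i ξ (a + s) (hmem s hs)).trans ?_
        exact mul_le_mul_of_nonneg_left (fix2_er_le ha ξ (by linarith [hs.1]))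
          ((hW n).2.2.1 i))
      ⟨1 / 2, E * (1 + 16 / Real.sqrt a), by norm_num, by norm_num, by
        intro n ξ s hs
        refine (hd n ξ (a + s) (hmem s hs)).trans ?_
        have := mul_le_mul_of_nonneg_left (fix2_er_le ha ξ (τ := a + s) (by linarith [hs.1]))
          (show 0 ≤ E * (1 / 2) ^ n by positivity)
        linarith⟩
    have hvw : ∀ s ∈ Icc (0 : ℝ) (T - a), (fun ξ => v ξ s) = fun ξ => w ξ (a + s) := by
      intro s hs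
      funext ξ
      have h1 := hv3 0 ξ s hs
      simp only [iteratedDeriv_zero] at h1
      exact tendsto_nhds_unique h1 (hconv ξ (a + s) (hmem s hs))
    have hvw' : ∀ τ ∈ Icc a T, (fun ξ => w ξ τ) = fun ξ => v ξ (τ - a) := by
      intro τ hτ
      have h1 := hvw (τ - a) ⟨by linarith [hτ.1], by linarith [hτ.2]⟩
      rw [h1]
      funext ξ
      congr 1
      ring
    have hmem' : ∀ τ ∈ Icc a T, τ - a ∈ Icc (0 : ℝ) (T - a) :=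
      fun τ hτ => ⟨by linarith [hτ.1], by linarith [hτ.2]⟩
    refine ⟨?_, ?_, ?_⟩
    · intro τ hτ m
      rw [hvw' τ hτ]
      exact hv1 (τ - a) (hmem' τ hτ) m
    · intro i
      have hc : ContinuousOn (fun q : ℝ × ℝ => ((q.1, q.2 - a) : ℝ × ℝ))
          (univ ×ˢ Icc a T) := by fun_prop
      have h1 := (hv2 i).comp hc (fun q hq => ⟨mem_univ _, hmem' q.2 hq.2⟩)
      refine h1.congr ?_
      rintro ⟨ξ, τ⟩ hq
      simp only [Function.comp]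
      rw [hvw' τ hq.2]
    · intro i ξ τ hτ
      have h1 := hv3 i ξ (τ - a) (hmem' τ hτ)
      rw [hvw' τ hτ]
      have e : a + (τ - a) = τ := by ring
      simp only [e] at h1
      exact h1
  have hhalf : ∀ τ ∈ Ioc (0 : ℝ) T, 0 < τ / 2 ∧ τ / 2 < T ∧ τ ∈ Icc (τ / 2) T := by
    intro τ hτ
    exact ⟨by linarith [hτ.1], by linarith [hτ.1, hτ.2], by linarith [hτ.1], hτ.2⟩
  refine ⟨w, ⟨?_, ?_, (hW 0).2.2.1, ?_⟩, hconv, ?_⟩
  · intro τ hτ n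
    obtain ⟨h1, h2, h3⟩ := hhalf τ hτ
    exact (hloc (τ / 2) h1 h2).1 τ h3 n
  · intro i q hq
    obtain ⟨h1, h2, h3⟩ := hhalf q.2 hq.2
    have h4 := (hloc (q.2 / 2) h1 h2).2.1 i q ⟨mem_univ _, h3⟩
    refine h4.mono_of_mem_nhdsWithin ?_
    rw [mem_nhdsWithin]
    refine ⟨univ ×ˢ Ioi (q.2 / 2), isOpen_univ.prod isOpen_Ioi, ⟨mem_univ _, ?_⟩, ?_⟩
    · show q.2 / 2 < q.2
      linarith [hq.2.1]
    · rintro ⟨x, t⟩ ⟨⟨-, ht1⟩, ⟨-, ht2⟩⟩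
      exact ⟨mem_univ _, le_of_lt ht1, ht2.2⟩
  · intro i ξ τ hτ
    obtain ⟨h1, h2, h3⟩ := hhalf τ hτ
    exact le_of_tendsto ((hloc (τ / 2) h1 h2).2.2 i ξ τ h3).norm
      (Eventually.of_forall fun n => (hW n).2.2.2 i ξ τ hτ)
  · intro n ξ τ hτ
    have h1 := dist_le_of_le_geometric_of_tendsto (1 / 2) (E * ((1 + |ξ|) * er ξ τ)) (by norm_num)
      (hdist ξ τ hτ) (hconv ξ τ hτ) n
    rw [dist_eq_norm] at h1
    refine h1.trans (le_of_eq ?_)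
    ring

/-- **Job FIX2.** -/
theorem fix2 (h1 : S_W02) (_h2 : S_CVB2) (h3 : S_NB2) (h4 : S_NL2)
    (h5 : Pool.Agent.Q82.BB.S_LIM) : S_FIX2 := by
  intro T κ hT hκ
  obtain ⟨A, hA⟩ := h1 T hT
  obtain ⟨K0, K1, hK0, hK1, hN⟩ := h3 T κ hT hκ
  obtain ⟨L, hL, hLip⟩ := h4 T κ hT hκ
  have hA0 : ∀ i, 0 ≤ A i := by
    intro i
    have := (hA 1 one_pos).1.2.2.1 i
    simpa using this
  have ha : 0 < A 0 + 1 := by linarith [hA0 0]
  refine ⟨1 / (8 * (A 0 + 1) * (K0 + L)), 4 * K0 * (A 0 + 1) ^ 2, by positivity, by positivity, ?_⟩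
  intro ε hε hε0
  have hε1 : ε * (8 * (A 0 + 1) * (K0 + L)) ≤ 1 := by
    rwa [le_div_iff₀ (by positivity)] at hε0
  set d : ℝ := 2 * (ε * (A 0 + 1)) with hd
  have hd0 : 0 < d := by positivity
  have hdK : d * (K0 + L) ≤ 1 / 4 := by rw [hd]; linarith
  have hdK0 : d * K0 ≤ 1 / 4 := by nlinarith
  have hdL : d * L ≤ 1 / 4 := by nlinarith
  set D : ℕ → ℝ := fix2_D A K1 ε d with hD
  have hDz : D 0 = d := by
    rw [hD, hd]; simp [fix2_D, fix2_S]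
  have hDn : ∀ i, 0 ≤ D i := fix2_D_nonneg A K1 ε d hA0 hK1 hε.le hd0.le
  have hSn : ∀ i, 0 ≤ ∑ j ∈ Finset.range i, D j := fun i => Finset.sum_nonneg fun j _ => hDn j
  have hDe : ∀ i, D i = 2 * (ε * (A i + 1) + d * (K1 i * ∑ j ∈ Finset.range i, D j)) := by
    intro i
    rw [hD, fix2_sum]; rfl
  have hDA : ∀ i, ε * A i ≤ D i := by
    intro i
    rw [hDe i]
    have h1 := mul_nonneg hd0.le (mul_nonneg (hK1 i) (hSn i))
    have h2 := mul_nonneg hε.le (hA0 i)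
    nlinarith
  have hDstep : ∀ i, ε * A i + D 0 * (K0 * D i + K1 i * ∑ j ∈ Finset.range i, D j) ≤ D i := by
    intro i
    rw [hDz]
    have h1 := mul_nonneg hd0.le (mul_nonneg (hK1 i) (hSn i))
    have h2 := mul_le_mul_of_nonneg_right hdK0 (hDn i)
    have h3 := hDe i
    nlinarith [hDn i]
  set W := fix2_W T κ ε with hW
  have hW1 : ∀ n, W (n + 1) = fun ξ τ => w02 ε ξ τ + Nl T κ (W n) ξ τ := fun n => rfl
  have hAdm : ∀ n, Adm2 T (W n) D := by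
    intro n
    induction n with
    | zero => exact fix2_mono (hA ε hε).1 hDA
    | succ n ih =>
      rw [hW1]
      obtain ⟨g1, g2, g3⟩ := hN (W n) D ih
      exact fix2_step (hA ε hε).1 g1 g2 g3 hDstep hDn
  have hherm : ∀ n, ∀ ξ : ℝ, ∀ τ ∈ Ioc 0 T, W n (-ξ) τ = (starRingEnd ℂ) (W n ξ τ) := by
    intro n
    induction n with
    | zero => exact fun ξ τ _ => (hA ε hε).2 ξ τ
    | succ n ih =>
      intro ξ τ _
      rw [hW1]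
      simp only
      rw [(hA ε hε).2 ξ τ, fix2_herm hT hκ.2.2.1 ih ξ τ, map_add]
  set E : ℝ := d * (K0 * d) with hEdef
  have hE : 0 ≤ E := by positivity
  have hNl0 : ∀ (w : ℝ → ℝ → ℂ), Adm2 T w D → ∀ ξ : ℝ, ∀ τ ∈ Ioc 0 T,
      ‖Nl T κ w ξ τ‖ ≤ E * ((1 + |ξ|) * er ξ τ) := by
    intro w hw ξ τ hτ
    have := (hN w D hw).2.2 0 ξ τ hτ
    simp only [iteratedDeriv_zero, Finset.range_zero, Finset.sum_empty, mul_zero, add_zero] at this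
    rw [hDz] at this
    exact this
  have hdiff : ∀ n : ℕ, ∀ ξ : ℝ, ∀ τ ∈ Ioc 0 T,
      ‖W (n + 1) ξ τ - W n ξ τ‖ ≤ E * (1 / 2) ^ n * ((1 + |ξ|) * er ξ τ) := by
    intro n
    induction n with
    | zero =>
      intro ξ τ hτ
      have := hNl0 (W 0) (hAdm 0) ξ τ hτ
      rw [hW1]
      have e : w02 ε ξ τ + Nl T κ (W 0) ξ τ - W 0 ξ τ = Nl T κ (W 0) ξ τ := by
        show w02 ε ξ τ + Nl T κ (W 0) ξ τ - w02 ε ξ τ = _
        ring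
      simp only [e]
      simpa using this
    | succ n ih =>
      intro ξ τ hτ
      have h6 := hLip (W (n + 1)) (W n) D D (E * (1 / 2) ^ n) (by positivity) (hAdm (n + 1))
        (hAdm n) ih ξ τ hτ
      have e : W (n + 1 + 1) ξ τ - W (n + 1) ξ τ =
          Nl T κ (W (n + 1)) ξ τ - Nl T κ (W n) ξ τ := by
        rw [hW1 (n + 1), hW1 n]
        ring
      rw [e]
      refine h6.trans ?_
      apply mul_le_mul_of_nonneg_right _ (fix2_g_nonneg ξ τ)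
      rw [hDz, pow_succ]
      have h7 : 0 ≤ E * (1 / 2 : ℝ) ^ n := by positivity
      nlinarith
  obtain ⟨w, hw1, hw2, hw3⟩ := fix2_lim h5 hT W D hAdm E hE hdiff
  refine ⟨w, D, hw1, ?_, ?_, ?_⟩
  · intro ξ τ hτ
    have t1 : Tendsto (fun n => W (n + 1) ξ τ) atTop (𝓝 (w ξ τ)) :=
      (tendsto_add_atTop_iff_nat 1).2 (hw2 ξ τ hτ)
    have t2 : Tendsto (fun n => Nl T κ (W n) ξ τ) atTop (𝓝 (Nl T κ w ξ τ)) := by
      rw [tendsto_iff_norm_sub_tendsto_zero]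
      have hb : ∀ n : ℕ, ‖Nl T κ (W n) ξ τ - Nl T κ w ξ τ‖ ≤
          (L * (D 0 + D 0) * (2 * E) * ((1 + |ξ|) * er ξ τ)) * (1 / 2) ^ n := by
        intro n
        have := hLip (W n) w D D (2 * E * (1 / 2) ^ n) (by positivity) (hAdm n) hw1
          (hw3 n) ξ τ hτ
        refine this.trans (le_of_eq ?_)
        ring
      have t3 : Tendsto (fun n : ℕ => (L * (D 0 + D 0) * (2 * E) * ((1 + |ξ|) * er ξ τ)) *
          (1 / 2 : ℝ) ^ n) atTop (𝓝 0) := by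
        have := (tendsto_pow_atTop_nhds_zero_of_lt_one (r := (1 / 2 : ℝ)) (by norm_num)
          (by norm_num)).const_mul (L * (D 0 + D 0) * (2 * E) * ((1 + |ξ|) * er ξ τ))
        simpa using this
      exact squeeze_zero (fun n => norm_nonneg _) hb t3
    have t4 : Tendsto (fun n => W (n + 1) ξ τ) atTop (𝓝 (w02 ε ξ τ + Nl T κ w ξ τ)) := by
      have := t2.const_add (w02 ε ξ τ)
      exact this
    exact tendsto_nhds_unique t1 t4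
  · intro ξ τ hτ
    have t1 := hw2 (-ξ) τ hτ
    have t2 : Tendsto (fun n => W n (-ξ) τ) atTop (𝓝 ((starRingEnd ℂ) (w ξ τ))) := by
      have h6 : (fun n => W n (-ξ) τ) = fun n => (starRingEnd ℂ) (W n ξ τ) := by
        funext n
        exact hherm n ξ τ hτ
      rw [h6]
      exact (Complex.continuous_conj.tendsto _).comp (hw2 ξ τ hτ)
    exact tendsto_nhds_unique t1 t2
  · intro ξ τ hτ
    refine (hNl0 w hw1 ξ τ hτ).trans (le_of_eq ?_)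
    rw [hEdef, hd]
    ring

end Pool.Agent.Q82.BC
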