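import Pool.Agent.Q127.DJ.Stm

/-!
# DJ-BES: Bessel's inequality for the innovations
-/

set_option autoImplicit false

namespace Pool.Agent.Q194.DJ_BES

open MeasureTheory Filter Topology
open Pool.Agent.Q127.DJ

lemma dep_succ {m : ℕ} {f : ℕ → Fin m} {t : ℕ} {ψ : (ℕ → ℕ) → ℝ} (h : Dep f t ψ) : Dep f (t + 1) ψ := by
  intro x y hxy
  apply h
  funext i
  have := congrFun hxy i.castSucc
  simpa [nm] using this

lemma dep_mul {m : ℕ} {f : ℕ → Fin m} {t : ℕ} {ψ χ : (ℕ → ℕ) → ℝ} (h : Dep f t ψ) (h' : Dep f t χ) :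
    Dep f t (fun x => ψ x * χ x) := by
  intro x y hxy
  change ψ x * χ x = ψ y * χ y
  rw [h x y hxy, h' x y hxy]

lemma bm_nonneg {C : ℝ} {φ : (ℕ → ℕ) → ℝ} (h : BM C φ) : 0 ≤ C :=
  (abs_nonneg _).trans (h.2 (fun _ => 0))

lemma bm_mul {C C' : ℝ} {φ ψ : (ℕ → ℕ) → ℝ} (h : BM C φ) (h' : BM C' ψ) :
    BM (C * C') (fun x => φ x * ψ x) := by
  refine ⟨h.1.mul h'.1, fun x => ?_⟩
  rw [abs_mul]
  exact mul_le_mul (h.2 x) (h'.2 x) (abs_nonneg _) (bm_nonneg h)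

lemma bm_sub {C C' : ℝ} {φ ψ : (ℕ → ℕ) → ℝ} (h : BM C φ) (h' : BM C' ψ) :
    BM (C + C') (fun x => φ x - ψ x) := by
  refine ⟨h.1.sub h'.1, fun x => ?_⟩
  exact (abs_sub _ _).trans (add_le_add (h.2 x) (h'.2 x))

lemma bm_sq {C : ℝ} {φ : (ℕ → ℕ) → ℝ} (h : BM C φ) : BM (C * C) (fun x => φ x ^ 2) := by
  have := bm_mul h h
  refine ⟨h.1.pow_const 2, fun x => ?_⟩
  have h2 := this.2 x
  change |φ x ^ 2| ≤ C * C
  rw [sq]
  exact h2

lemma bm_int {μ : Measure (ℕ → ℕ)} [IsProbabilityMeasure μ] {C : ℝ} {φ : (ℕ → ℕ) → ℝ} (h : BM C φ) :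
    Integrable φ μ :=
  Integrable.of_bound h.1.aestronglyMeasurable C (Eventually.of_forall fun x => by
    rw [Real.norm_eq_abs]; exact h.2 x)

/-- `∫ u v ≤ (∫ u² + ∫ v²) / 2` -/
lemma int_mul_le {μ : Measure (ℕ → ℕ)} [IsProbabilityMeasure μ] {C C' : ℝ} {u v : (ℕ → ℕ) → ℝ}
    (hu : BM C u) (hv : BM C' v) :
    ∫ x, u x * v x ∂μ ≤ (∫ x, u x ^ 2 ∂μ + ∫ x, v x ^ 2 ∂μ) / 2 := by
  have h1 := bm_int (μ := μ) (bm_mul hu hv)
  have h2 := bm_int (μ := μ) (bm_sq hu)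
  have h3 := bm_int (μ := μ) (bm_sq hv)
  rw [← integral_add h2 h3, ← integral_div]
  refine integral_mono h1 ((h2.add h3).div_const 2) fun x => ?_
  change u x * v x ≤ (u x ^ 2 + v x ^ 2) / 2
  nlinarith [sq_nonneg (u x - v x)]

theorem bes (h1 : S_ce1) (h2 : S_ce2) (h3 : S_inn) : S_bes := by
  intro μ _ m f a T U C φ hφ
  have hC := bm_nonneg hφ
  -- the martingale
  set e : ℕ → (ℕ → ℕ) → ℝ := fun t => E μ f t φ with he
  have heD : ∀ t, Dep f t (e t) := fun t => (h1 μ m f t C φ hC hφ).1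
  have heB : ∀ t, BM C (e t) := fun t => (h1 μ m f t C φ hC hφ).2
  have hgD : ∀ t, Dep f (t + 1) (g μ f a t) := fun t => (h3 μ m f a t).1
  have hgB : ∀ t, BM 1 (g μ f a t) := fun t => (h3 μ m f a t).2.1
  have hgφ : ∀ t, BM C (fun y => g μ f a t y * φ y) := by
    intro t
    have := bm_mul (hgB t) hφ
    rwa [one_mul] at this
  set u : ℕ → (ℕ → ℕ) → ℝ := fun t => E μ f t (fun y => g μ f a t y * φ y) with hu
  have huD : ∀ t, Dep f t (u t) := fun t => (h1 μ m f t C _ hC (hgφ t)).1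
  have huB : ∀ t, BM C (u t) := fun t => (h1 μ m f t C _ hC (hgφ t)).2
  -- the squares of the martingale
  have sqe : ∀ t, ∫ x, e t x ^ 2 ∂μ = ∫ x, e t x * φ x ∂μ := by
    intro t
    rw [← h2 μ m f t C C φ (e t) hφ (heB t) (heD t)]
    exact integral_congr_ae (Eventually.of_forall fun x => by change e t x ^ 2 = e t x * e t x; ring)
  have cross : ∀ t, ∫ x, e t x * e (t + 1) x ∂μ = ∫ x, e t x ^ 2 ∂μ := by
    intro t
    rw [sqe t]
    exact h2 μ m f (t + 1) C C φ (e t) hφ (heB t) (dep_succ (heD t))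
  have sqd : ∀ t, ∫ x, (e (t + 1) x - e t x) ^ 2 ∂μ = ∫ x, e (t + 1) x ^ 2 ∂μ - ∫ x, e t x ^ 2 ∂μ := by
    intro t
    have i1 := bm_int (μ := μ) (bm_sq (heB (t + 1)))
    have i2 := bm_int (μ := μ) (bm_sq (heB t))
    have i3 := bm_int (μ := μ) (bm_mul (heB t) (heB (t + 1)))
    have : ∀ x, (e (t + 1) x - e t x) ^ 2 = (e (t + 1) x ^ 2 - 2 * (e t x * e (t + 1) x)) + e t x ^ 2 := by
      intro x; ring
    have j1 : ∫ x, ((e (t + 1) x ^ 2 - 2 * (e t x * e (t + 1) x)) + e t x ^ 2) ∂μ =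
        ∫ x, (e (t + 1) x ^ 2 - 2 * (e t x * e (t + 1) x)) ∂μ + ∫ x, e t x ^ 2 ∂μ :=
      integral_add (i1.sub (i3.const_mul 2)) i2
    have j2 : ∫ x, (e (t + 1) x ^ 2 - 2 * (e t x * e (t + 1) x)) ∂μ =
        ∫ x, e (t + 1) x ^ 2 ∂μ - ∫ x, 2 * (e t x * e (t + 1) x) ∂μ :=
      integral_sub i1 (i3.const_mul 2)
    rw [integral_congr_ae (Eventually.of_forall this), j1, j2, integral_const_mul, cross t]
    ring
  -- one step
  have step : ∀ t, ∫ x, u t x ^ 2 ∂μ ≤ ∫ x, e (t + 1) x ^ 2 ∂μ - ∫ x, e t x ^ 2 ∂μ := by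
    intro t
    have a1 : ∫ x, u t x ^ 2 ∂μ = ∫ x, u t x * (g μ f a t x * φ x) ∂μ := by
      rw [← h2 μ m f t C C _ (u t) (hgφ t) (huB t) (huD t)]
      exact integral_congr_ae (Eventually.of_forall fun x => by change u t x ^ 2 = u t x * u t x; ring)
    have hugB : BM C (fun x => u t x * g μ f a t x) := by
      have := bm_mul (huB t) (hgB t)
      rwa [mul_one] at this
    have hugD : Dep f (t + 1) (fun x => u t x * g μ f a t x) := dep_mul (dep_succ (huD t)) (hgD t)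
    have a2 : ∫ x, u t x * (g μ f a t x * φ x) ∂μ = ∫ x, (u t x * g μ f a t x) * e (t + 1) x ∂μ := by
      rw [h2 μ m f (t + 1) C C φ _ hφ hugB hugD]
      exact integral_congr_ae (Eventually.of_forall fun x => by
        change u t x * (g μ f a t x * φ x) = u t x * g μ f a t x * φ x; ring)
    have a3 : ∫ x, (u t x * e t x) * g μ f a t x ∂μ = 0 :=
      (h3 μ m f a t).2.2.1 (C * C) _ (bm_mul (huB t) (heB t)) (dep_mul (huD t) (heD t))
    have b1 : BM (C + C) (fun x => e (t + 1) x - e t x) := bm_sub (heB (t + 1)) (heB t)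
    have b2 : BM (1 * (C + C)) (fun x => g μ f a t x * (e (t + 1) x - e t x)) := bm_mul (hgB t) b1
    have a4 : ∫ x, u t x * (g μ f a t x * (e (t + 1) x - e t x)) ∂μ = ∫ x, u t x ^ 2 ∂μ := by
      have : ∀ x, u t x * (g μ f a t x * (e (t + 1) x - e t x)) =
          (u t x * g μ f a t x) * e (t + 1) x - (u t x * e t x) * g μ f a t x := by
        intro x; ring
      rw [integral_congr_ae (Eventually.of_forall this),
        integral_sub (bm_int (bm_mul hugB (heB (t + 1)))) (bm_int (bm_mul (bm_mul (huB t) (heB t)) (hgB t))),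
        a3, sub_zero, ← a2, ← a1]
    have a5 := int_mul_le (μ := μ) (huB t) b2
    rw [a4] at a5
    have a6 : ∫ x, (g μ f a t x * (e (t + 1) x - e t x)) ^ 2 ∂μ ≤ ∫ x, (e (t + 1) x - e t x) ^ 2 ∂μ := by
      refine integral_mono (bm_int (bm_sq b2)) (bm_int (bm_sq b1)) fun x => ?_
      change (g μ f a t x * (e (t + 1) x - e t x)) ^ 2 ≤ (e (t + 1) x - e t x) ^ 2
      rw [mul_pow]
      have hg1 : g μ f a t x ^ 2 ≤ 1 := by
        have := (hgB t).2 x
        rw [← sq_abs]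
        have h0 := abs_nonneg (g μ f a t x)
        nlinarith
      nlinarith [sq_nonneg (e (t + 1) x - e t x)]
    rw [sqd t] at a6
    linarith
  -- the last square
  have last : ∀ t, ∫ x, e t x ^ 2 ∂μ ≤ ∫ x, φ x ^ 2 ∂μ := by
    intro t
    have := int_mul_le (μ := μ) (heB t) hφ
    rw [← sqe t] at this
    linarith
  have hφ0 : 0 ≤ ∫ x, φ x ^ 2 ∂μ := integral_nonneg fun x => sq_nonneg _
  rcases le_total T U with hTU | hTU
  · have tel : ∑ t ∈ Finset.Ico T U, ∫ x, u t x ^ 2 ∂μ ≤ ∫ x, e U x ^ 2 ∂μ - ∫ x, e T x ^ 2 ∂μ := by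
      induction U, hTU using Nat.le_induction with
      | base => simp
      | succ n hn ih =>
        rw [Finset.sum_Ico_succ_top hn]
        have := step n
        linarith
    have hT0 : 0 ≤ ∫ x, e T x ^ 2 ∂μ := integral_nonneg fun x => sq_nonneg _
    have := last U
    change ∑ t ∈ Finset.Ico T U, ∫ x, u t x ^ 2 ∂μ ≤ ∫ x, φ x ^ 2 ∂μ
    linarith
  · rw [Finset.Ico_eq_empty_of_le hTU, Finset.sum_empty]
    exact hφ0

end Pool.Agent.Q194.DJ_BES
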