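import Pool.Agent.Q37.GU.Stm
import Pool.Agent.Q37.GU.Basic

/-!
Project GU of helper37 (MP_8178ab_ag), job F4: the system of nonconstant branches.
-/

open CategoryTheory CategoryTheory.Limits AlgebraicGeometry Topology

namespace Pool.Agent.Q194.GU_F4

open Pool.Agent.W481 Pool.Agent.Q37.GU

/-- the partial pull-back of nonconstant branches -/
noncomputable def pbF (h7a : S_T7a) (μ : ℂ) {X Y : Over SpecC} (f : X ⟶ Y) {x : Pt X} {x' : Pt Y}
    (hx : pushC f x = x') (g : NB μ Y x') : Option (NB μ X x) :=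
  open Classical in
  if h : Cst (gp (pushC f) hx g.1) then none
  else some ⟨gp (pushC f) hx g.1, h7a μ X Y f x x' hx g.1 g.2.1, h⟩

theorem pbF_none (h7a : S_T7a) (μ : ℂ) {X Y : Over SpecC} (f : X ⟶ Y) {x : Pt X} {x' : Pt Y}
    (hx : pushC f x = x') (g : NB μ Y x') (h : Cst (gp (pushC f) hx g.1)) :
    pbF h7a μ f hx g = none := by
  unfold pbF
  rw [dif_pos h]

theorem pbF_some (h7a : S_T7a) (μ : ℂ) {X Y : Over SpecC} (f : X ⟶ Y) {x : Pt X} {x' : Pt Y}
    (hx : pushC f x = x') (g : NB μ Y x') (h : ¬ Cst (gp (pushC f) hx g.1)) :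
    pbF h7a μ f hx g = some ⟨gp (pushC f) hx g.1, h7a μ X Y f x x' hx g.1 g.2.1, h⟩ := by
  unfold pbF
  rw [dif_neg h]

theorem pbF_some' (h7a : S_T7a) (μ : ℂ) {X Y : Over SpecC} (f : X ⟶ Y) {x : Pt X} {x' : Pt Y}
    (hx : pushC f x = x') (g : NB μ Y x') (h : ¬ Cst (gp (pushC f) hx g.1)) :
    ∃ k : NB μ X x, pbF h7a μ f hx g = some k ∧ k.1 = gp (pushC f) hx g.1 :=
  ⟨_, pbF_some h7a μ f hx g h, rfl⟩

theorem pbF_eq (h7a : S_T7a) (μ : ℂ) {X Y : Over SpecC} (f : X ⟶ Y) {x : Pt X} {x' : Pt Y}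
    (hx : pushC f x = x') (g : NB μ Y x') (k : NB μ X x) (h : k.1 = gp (pushC f) hx g.1) :
    pbF h7a μ f hx g = some k := by
  have h1 : ¬ Cst (gp (pushC f) hx g.1) := h ▸ k.2.2
  rw [pbF_some h7a μ f hx g h1]
  exact congrArg some (Subtype.ext h.symm)

theorem cst_of_subsingleton {T : Type} [TopologicalSpace T] [Subsingleton T] {x : T} (g : G x) :
    Cst g := by
  obtain ⟨u, rfl⟩ := exists_gm g
  refine ⟨u x, ?_⟩
  rw [gm_eq_iff]
  exact Filter.Eventually.of_forall fun t => congrArg u (Subsingleton.elim t x)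

theorem pbF_id (h7a : S_T7a) (μ : ℂ) {X : Over SpecC} {x : Pt X} (hx : pushC (𝟙 X) x = x)
    (g : NB μ X x) : pbF h7a μ (𝟙 X) hx g = some g := by
  refine pbF_eq h7a μ (𝟙 X) hx g g ?_
  have h1 := gp_congr (pushC_id X) hx rfl g.1
  have h2 := gp_id (rfl : ContinuousMap.id (Pt X) x = x) g.1
  exact (h1.trans h2).symm

theorem pbF_comp (h7a : S_T7a) (μ : ℂ) {X Y Z : Over SpecC} (f : X ⟶ Y) (h : Y ⟶ Z) {x : Pt X}
    {x' : Pt Y} {x'' : Pt Z} (hx : pushC f x = x') (hx' : pushC h x' = x'')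
    (hx'' : pushC (f ≫ h) x = x'') (g : NB μ Z x'') :
    pbF h7a μ (f ≫ h) hx'' g = (pbF h7a μ h hx' g).bind (pbF h7a μ f hx) := by
  have hx3 : ((pushC h).comp (pushC f)) x = x'' := by
    rw [pushC_comp']
    exact hx''
  have e1 : gp (pushC (f ≫ h)) hx'' g.1 = gp (pushC f) hx (gp (pushC h) hx' g.1) :=
    (gp_congr (pushC_comp' f h) hx3 hx'' g.1).symm.trans
      (gp_comp (pushC f) (pushC h) hx hx' hx3 g.1)
  by_cases a1 : Cst (gp (pushC h) hx' g.1)
  · have a2 : Cst (gp (pushC (f ≫ h)) hx'' g.1) := by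
      rw [e1]
      exact cst_gp _ _ a1
    rw [pbF_none h7a μ h hx' g a1, pbF_none h7a μ (f ≫ h) hx'' g a2]
    rfl
  · obtain ⟨k, hk, hk1⟩ := pbF_some' h7a μ h hx' g a1
    rw [← hk1] at e1
    rw [hk, Option.bind_some]
    by_cases a2 : Cst (gp (pushC (f ≫ h)) hx'' g.1)
    · rw [pbF_none h7a μ (f ≫ h) hx'' g a2, pbF_none h7a μ f hx _ (by rw [← e1]; exact a2)]
    · obtain ⟨k', hk', hk1'⟩ := pbF_some' h7a μ (f ≫ h) hx'' g a2
      rw [hk']
      exact (pbF_eq h7a μ f hx _ _ (hk1'.trans e1)).symm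

theorem pbF_tr (h7a : S_T7a) (μ : ℂ) {X Y : Over SpecC} (f : X ⟶ Y) {x y : Pt X} {x' y' : Pt Y}
    (hx : pushC f x = x') (hy : pushC f y = y') (g : NB μ Y x') (g' : NB μ Y y')
    (T : NB μ X x → NB μ X y)
    (hc : Cst (gp (pushC f) hx g.1) ↔ Cst (gp (pushC f) hy g'.1))
    (hT : ∀ k : NB μ X x, ∀ k' : NB μ X y, k.1 = gp (pushC f) hx g.1 →
      k'.1 = gp (pushC f) hy g'.1 → T k = k') :
    pbF h7a μ f hy g' = (pbF h7a μ f hx g).map T := by
  by_cases a1 : Cst (gp (pushC f) hx g.1)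
  · rw [pbF_none h7a μ f hx g a1, pbF_none h7a μ f hy g' (hc.1 a1)]
    rfl
  · obtain ⟨k, hk, hk1⟩ := pbF_some' h7a μ f hx g a1
    obtain ⟨k', hk', hk1'⟩ := pbF_some' h7a μ f hy g' (fun h => a1 (hc.2 h))
    rw [hk, hk', Option.map_some]
    exact congrArg some (hT _ _ hk1 hk1').symm

theorem f4 (h1 : S_T1) (h5 : S_T5) (h6 : S_T6) (h7a : S_T7a) (h7b : S_T7b) (h8 : S_T8)
    (h10 : S_T10) (h11 : S_T11) (h16 : S_P16) : S_F4 := by
  intro μ
  -- constancy is invariant under continuation, in both directions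
  have c1 : ∀ (X : CVar) (x y : Pt X.sch) (p : PH x y) (g : G x) (g' : G y),
      Tr μ X.sch p g g' → (Cst g ↔ Cst g') := fun X x y p g g' h =>
    ⟨h8 μ X.sch X.smooth x y p g g' h,
      h8 μ X.sch X.smooth y x p.symm g' g ((h11 μ X.sch X.smooth).2.1 x y p g g' h)⟩
  have ex : ∀ (X : CVar) (x y : Pt X.sch) (p : PH x y) (g : NB μ X.sch x),
      ∃ g' : NB μ X.sch y, Tr μ X.sch p g.1 g'.1 := by
    intro X x y p g
    obtain ⟨g', hg'⟩ := h5 μ X.sch x y p g.1 g.2.1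
    exact ⟨⟨g', (tr_isBr hg').2, fun hc => g.2.2 ((c1 X x y p g.1 g' hg').2 hc)⟩, hg'⟩
  choose T hT using ex
  have uq : ∀ (X : CVar) (x y : Pt X.sch) (p : PH x y) (g : NB μ X.sch x)
      (g' : NB μ X.sch y), Tr μ X.sch p g.1 g'.1 → T X x y p g = g' :=
    fun X x y p g g' h => Subtype.ext (h6 μ X.sch X.smooth x y p g.1 _ _ (hT X x y p g) h)
  have hptr : ∀ (X Y : CVar) (f : X.sch ⟶ Y.sch) (x y : Pt X.sch) (x' y' : Pt Y.sch)
      (hx : pushC f x = x') (hy : pushC f y = y') (p : PH x y) (g : NB μ Y.sch x'),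
      pbF h7a μ f hy (T Y x' y' (PHmap (pushC f) hx hy p) g)
        = (pbF h7a μ f hx g).map (T X x y p) := by
    intro X Y f x y x' y' hx hy p g
    have t1 := hT Y x' y' (PHmap (pushC f) hx hy p) g
    have t2 := h7b μ X.sch Y.sch f x y x' y' hx hy p g.1 _ t1
    have t3 := c1 X x y p _ _ t2
    refine pbF_tr h7a μ f hx hy g _ _ t3 ?_
    intro k k' hk hk'
    refine uq X x y p k k' ?_
    rw [hk, hk']
    exact t2
  have hlift : ∀ (X Y : CVar) (f : X.sch ⟶ Y.sch), Etale f.left → IsFinite f.left →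
      ∀ x : Pt X.sch, ∃ e : NB μ Y.sch (pushC f x) ≃ NB μ X.sch x,
        ∀ g, pbF h7a μ f rfl g = some (e g) := by
    intro X Y f hf hf' x
    have b1 : Function.Bijective (gp (pushC f) rfl : G (pushC f x) → G x) :=
      h1 _ _ (pushC f) (cover_main f hf hf').1.isLocalHomeomorph x _ rfl
    have b2 : Function.Bijective (fun g : NB μ Y.sch (pushC f x) =>
        (⟨gp (pushC f) rfl g.1, h7a μ X.sch Y.sch f x _ rfl g.1 g.2.1,
          fun hc => g.2.2 (cst_of_gp (pushC f) rfl b1.1 hc)⟩ : NB μ X.sch x)) := by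
      constructor
      · intro g g' h
        exact Subtype.ext (b1.1 (congrArg Subtype.val h))
      · intro k
        obtain ⟨g, hg⟩ := b1.2 k.1
        refine ⟨⟨g, h10 μ X.sch Y.sch f hf hf' x g (by rw [hg]; exact k.2.1), fun hc => ?_⟩, ?_⟩
        · exact k.2.2 (by rw [← hg]; exact cst_gp _ _ hc)
        · exact Subtype.ext hg
    exact ⟨Equiv.ofBijective _ b2, fun g => pbF_eq h7a μ f rfl g _ rfl⟩
  refine ⟨{
    N := fun X x => NB μ X.sch x
    tr := fun {X x y} p g => T X x y p g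
    tr_refl := fun {X} x g => uq X x x _ g g ((h11 μ X.sch X.smooth).1 x g.1 g.2.1)
    tr_trans := fun {X x y z} p q g => uq X x z _ g _
      ((h11 μ X.sch X.smooth).2.2 x y z p q _ _ _ (hT X x y p g) (hT X y z q _))
    pb := fun {X Y} f {x x'} hx g => pbF h7a μ f hx g
    pb_id := fun {X x} hx g => pbF_id h7a μ hx g
    pb_comp := fun {X Y Z} f h {x x' x''} hx hx' hx'' g => pbF_comp h7a μ f h hx hx' hx'' g
    pb_tr := fun {X Y} f {x y x' y'} hx hy p g => hptr X Y f x y x' y' hx hy p g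
    prod := fun {X Y P} p q hP a => by
      obtain ⟨hP⟩ := hP
      obtain ⟨e, he1, he2⟩ := h16 μ X.sch Y.sch P.sch X.smooth Y.smooth p q hP a
      exact ⟨e, fun g => pbF_eq h7a μ p rfl g _ (he1 g),
        fun g => pbF_eq h7a μ q rfl g _ (he2 g)⟩
    terminal := fun {P} hP a => by
      obtain ⟨hP⟩ := hP
      haveI : Subsingleton (Pt P.sch) :=
        ⟨fun x y => hP.hom_ext (show Over.mk (𝟙 SpecC) ⟶ P.sch from x) y⟩
      exact ⟨fun g => g.2.2 (cst_of_subsingleton g.1)⟩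
    lifting := fun {X Y} f hf hf' x => hlift X Y f hf hf' x }, fun _ _ => rfl, ?_⟩
  intro X Y f x x' hx g k hk
  change pbF h7a μ f hx g = some k at hk
  change k.1 = gp (pushC f) hx g.1
  by_cases a1 : Cst (gp (pushC f) hx g.1)
  · have := (pbF_none h7a μ f hx g a1).symm.trans hk
    exact absurd this (by simp)
  · have := Option.some.inj ((pbF_some h7a μ f hx g a1).symm.trans hk)
    exact (congrArg Subtype.val this).symm

end Pool.Agent.Q194.GU_F4
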