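import Pool.Agent.Q37.GU.Stm
import Pool.Agent.Q37.GU.Basic

/-!
Project GU of helper37 (MP_8178ab_ag), job Q3: descent with a smooth parameter algebra.
-/

open CategoryTheory CategoryTheory.Limits AlgebraicGeometry Topology
open scoped TensorProduct

namespace Pool.Agent.Q194.GU_Q3

open Pool.Agent.W481 Pool.Agent.Q37.GU

/-- generic smoothness of finitely generated domains over a perfect field -/
theorem generic_smooth (K S : Type) [Field K] [PerfectField K] [CommRing S] [IsDomain S]
    [Algebra K S] [Algebra.FiniteType K S] :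
    ∃ s : S, s ≠ 0 ∧ Algebra.Smooth K (Localization.Away s) := by
  haveI : Algebra.FinitePresentation K S := Algebra.FinitePresentation.of_finiteType.1 inferInstance
  haveI : Algebra.IsSmoothAt K (⊥ : Ideal S) := by
    unfold Algebra.IsSmoothAt
    haveI : IsLocalization (⊥ : Ideal S).primeCompl (FractionRing S) := by
      have h : (⊥ : Ideal S).primeCompl = nonZeroDivisors S := by
        ext x
        rw [Ideal.mem_primeCompl_iff, mem_nonZeroDivisors_iff_ne_zero, Ideal.mem_bot]
      rw [h]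
      infer_instance
    haveI : Algebra.EssFiniteType S (FractionRing S) :=
      Algebra.EssFiniteType.of_isLocalization _ (nonZeroDivisors S)
    haveI : Algebra.EssFiniteType K (FractionRing S) := Algebra.EssFiniteType.comp _ S _
    haveI : Algebra.FormallySmooth K (FractionRing S) := Algebra.FormallySmooth.of_perfectField
    exact Algebra.FormallySmooth.of_equiv ((IsLocalization.algEquiv (⊥ : Ideal S).primeCompl
      (FractionRing S) (Localization.AtPrime (⊥ : Ideal S))).restrictScalars K)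
  obtain ⟨f, hf, h⟩ := Algebra.IsSmoothAt.exists_notMem_smooth K (⊥ : Ideal S)
  exact ⟨f, fun h0 => hf (by rw [h0]; exact Ideal.zero_mem _), h⟩

theorem isUnit_of {D C : Type} [CommRing D] [CommRing C] (j : D →+* C)
    (hj : Function.Injective j) (x y : D) (h : j x * j y = 1) : IsUnit x :=
  IsUnit.of_mul_eq_one y (hj (by rw [map_mul, h, map_one]))

/-- the parameter algebra -/
theorem exists_param (S : Subalgebra Qb ℂ) (hS : S.FG) :
    ∃ (R : Type) (_ : CommRing R) (_ : IsDomain R) (_ : Algebra Qb R) (_ : Algebra.Smooth Qb R)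
      (ι : R →ₐ[Qb] ℂ) (_ : Function.Injective ι) (a : S →ₐ[Qb] R), ι.comp a = S.val := by
  haveI : Algebra.FiniteType Qb S := (Subalgebra.fg_iff_finiteType S).1 hS
  obtain ⟨s, hs0, hs⟩ := generic_smooth Qb S
  have hle : Submonoid.powers s ≤ nonZeroDivisors S := by
    rw [Submonoid.powers_le]
    exact mem_nonZeroDivisors_iff_ne_zero.2 hs0
  have hu : ∀ y : Submonoid.powers s, IsUnit (S.val y) := by
    intro y
    have hy : (y : S) ≠ 0 := nonZeroDivisors.ne_zero (hle y.2)
    have : (S.val (y : S) : ℂ) ≠ 0 := fun h => hy (Subtype.ext h)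
    exact isUnit_iff_ne_zero.2 this
  refine ⟨Localization.Away s, inferInstance,
    IsLocalization.isDomain_localization hle, inferInstance, hs,
    IsLocalization.liftAlgHom (M := Submonoid.powers s) (f := S.val) hu, ?_,
    IsScalarTower.toAlgHom Qb S (Localization.Away s), ?_⟩
  · have h1 : Function.Injective ((IsLocalization.liftAlgHom (M := Submonoid.powers s)
        (S := Localization.Away s) (f := S.val) hu : Localization.Away s →ₐ[Qb] ℂ) :
        Localization.Away s →+* ℂ) := by
      rw [IsLocalization.injective_iff_map_algebraMap_eq (Submonoid.powers s)]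
      intro x y
      have h2 : ∀ z : S, ((IsLocalization.liftAlgHom (M := Submonoid.powers s)
          (S := Localization.Away s) (f := S.val) hu : Localization.Away s →ₐ[Qb] ℂ) :
          Localization.Away s →+* ℂ) (algebraMap S (Localization.Away s) z) = S.val z := by
        intro z
        simp
      rw [h2, h2]
      constructor
      · intro h
        exact congrArg _ (IsLocalization.injective (Localization.Away s) hle h)
      · intro h
        exact congrArg _ (Subtype.ext h)
    exact h1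
  · ext x
    simp

/-- base change of a finite étale algebra with its universal property -/
theorem base (P Q D₀ : Type) [CommRing P] [CommRing Q] [CommRing D₀] [Algebra P D₀]
    [Algebra.Etale P D₀] [Module.Finite P D₀] (f : P →+* Q) :
    ∃ (D : Type) (_ : CommRing D) (_ : Algebra Q D) (_ : Algebra.Etale Q D)
      (_ : Module.Finite Q D) (g : D₀ →+* D),
      (∀ t : P, g (algebraMap P D₀ t) = algebraMap Q D (f t)) ∧
      ∀ (C : Type) [CommRing C] (f₁ : Q →+* C) (f₂ : D₀ →+* C),
        (∀ t : P, f₁ (f t) = f₂ (algebraMap P D₀ t)) →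
        ∃ j : D →+* C, (∀ q, j (algebraMap Q D q) = f₁ q) ∧ ∀ d, j (g d) = f₂ d := by
  letI : Algebra P Q := f.toAlgebra
  refine ⟨Q ⊗[P] D₀, inferInstance, inferInstance, inferInstance, inferInstance,
    (Algebra.TensorProduct.includeRight : D₀ →ₐ[P] Q ⊗[P] D₀).toRingHom, ?_, ?_⟩
  · intro t
    change (Algebra.TensorProduct.includeRight : D₀ →ₐ[P] Q ⊗[P] D₀) (algebraMap P D₀ t) = _
    rw [AlgHom.commutes, IsScalarTower.algebraMap_apply P Q]
    rfl
  · intro C _ f₁ f₂ h
    letI : Algebra P C := (f₁.comp f).toAlgebra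
    let F₁ : Q →ₐ[P] C := { f₁ with commutes' := fun t => rfl }
    let F₂ : D₀ →ₐ[P] C := { f₂ with commutes' := fun t => (h t).symm }
    refine ⟨(Algebra.TensorProduct.productMap F₁ F₂).toRingHom, fun q => ?_, fun d => ?_⟩
    · change Algebra.TensorProduct.productMap F₁ F₂ (q ⊗ₜ 1) = _
      rw [Algebra.TensorProduct.productMap_apply_tmul, map_one, mul_one]
      rfl
    · change Algebra.TensorProduct.productMap F₁ F₂ (1 ⊗ₜ d) = _
      rw [Algebra.TensorProduct.productMap_apply_tmul, map_one, one_mul]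
      rfl

theorem q3 (h : S_Q2) : S_Q3 := by
  intro μ A0 _ _ C _ _ _ _ u hu hu1 huμ
  classical
  obtain ⟨u', hu'⟩ := hu.exists_right_inv
  obtain ⟨u1', hu1'⟩ := hu1.exists_right_inv
  obtain ⟨uμ', huμ'⟩ := huμ.exists_right_inv
  obtain ⟨S, hS, hF', D₀, iD1, iD2, iD3, iD4, j₀, hj₀, hF, hjt⟩ :=
    h A0 C {u, u', u1', uμ'} {μ}
  obtain ⟨d, hd⟩ := hF u (by simp)
  obtain ⟨d', hd'⟩ := hF u' (by simp)
  obtain ⟨d1', hd1'⟩ := hF u1' (by simp)
  obtain ⟨dμ', hdμ'⟩ := hF uμ' (by simp)
  have hμS : μ ∈ S := hF' (by simp)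
  obtain ⟨R, iR1, iR2, iR3, iR4, ι, hι, a, ha⟩ := exists_param S hS
  have hιa : ∀ x : S, ι (a x) = (x : ℂ) := fun x => DFunLike.congr_fun ha x
  have k1 : IsUnit d := isUnit_of j₀ hj₀ d d' (by rw [hd, hd', hu'])
  have k2 : IsUnit (d - 1) := isUnit_of j₀ hj₀ (d - 1) d1' (by
    rw [map_sub, map_one, hd, hd1', hu1'])
  have k3 : IsUnit (d - algebraMap (S ⊗[Qb] A0) D₀ ((⟨μ, hμS⟩ : S) ⊗ₜ 1)) :=
    isUnit_of j₀ hj₀ _ dμ' (by
      rw [map_sub, hd, hjt, hdμ', Algebra.TensorProduct.map_tmul, map_one]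
      exact huμ')
  obtain ⟨D, jD1, jD2, jD3, jD4, g, hg, hU⟩ := base (S ⊗[Qb] A0) (R ⊗[Qb] A0) D₀
    (Algebra.TensorProduct.map a (AlgHom.id Qb A0)).toRingHom
  obtain ⟨j, hj1, hj2⟩ := hU C ((algebraMap (ℂ ⊗[Qb] A0) C).comp
      (Algebra.TensorProduct.map ι (AlgHom.id Qb A0)).toRingHom) j₀ (by
    intro t
    rw [hjt]
    change algebraMap (ℂ ⊗[Qb] A0) C (Algebra.TensorProduct.map ι (AlgHom.id Qb A0)
          (Algebra.TensorProduct.map a (AlgHom.id Qb A0) t))
          = algebraMap (ℂ ⊗[Qb] A0) C (Algebra.TensorProduct.map S.val (AlgHom.id Qb A0) t)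
    rw [← ha, ← AlgHom.comp_apply, ← Algebra.TensorProduct.map_comp]
    rfl)
  refine ⟨R, iR1, iR2, iR3, iR4, ι, hι, a ⟨μ, hμS⟩, hιa _, D, jD1, jD2, jD3, jD4, g d,
    k1.map g, ?_, ?_, j, ?_, ?_⟩
  · have := k2.map g
    rw [map_sub, map_one] at this
    exact this
  · have := k3.map g
    rw [map_sub, hg] at this
    exact this
  · rw [hj2, hd]
  · intro t
    rw [hj1]
    rfl

end Pool.Agent.Q194.GU_Q3
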