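import Pool.Agent.Q88.MT.Stm

/-!
# Job MT-BOX: approximate eigenfunctions of the averaged powers of the shift

For every point `t` of the torus the (anti)symmetrised product of characters on disjoint long intervals is an
approximate eigenfunction of `T k` for the value `sy k t` of the symbol.
-/

set_option autoImplicit false

open Set Filter Topology

noncomputable section

namespace Pool.Agent.Q194.MT_BOX

open Pool.Agent.Q88.MT

/-- The character on the `i`-th interval. -/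
def g {n : ℕ} (κ N : ℕ) (t : Fin n → ℝ) (i : Fin n) (m : ℤ) : ℂ :=
  if (κ : ℤ) + ((i : ℕ) : ℤ) * N ≤ m ∧ m < (κ : ℤ) + (((i : ℕ) : ℤ) + 1) * N then
    Complex.exp (((-(t i * (m : ℝ)) : ℝ) : ℂ) * Complex.I) else 0

lemma g_norm_le {n : ℕ} (κ N : ℕ) (t : Fin n → ℝ) (i : Fin n) (m : ℤ) : ‖g κ N t i m‖ ≤ 1 := by
  unfold g
  split_ifs
  · rw [Complex.norm_exp_ofReal_mul_I]
  · simp

lemma g_of_not {n : ℕ} (κ N : ℕ) (t : Fin n → ℝ) (i : Fin n) (m : ℤ)
    (h : ¬ ((κ : ℤ) + ((i : ℕ) : ℤ) * N ≤ m ∧ m < (κ : ℤ) + (((i : ℕ) : ℤ) + 1) * N)) :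
    g κ N t i m = 0 := by
  unfold g
  rw [if_neg h]

lemma g_neg {n : ℕ} (κ N : ℕ) (t : Fin n → ℝ) (i : Fin n) (m : ℤ) (hm : m < 0) :
    g κ N t i m = 0 := by
  apply g_of_not
  rintro ⟨h1, -⟩
  have : (0 : ℤ) ≤ (κ : ℤ) + ((i : ℕ) : ℤ) * N := by positivity
  omega

/-- The error for one pair of permutations. -/
def F {n : ℕ} (κ N : ℕ) (k : Fin n → ℤ) (t : Fin n → ℝ) (τ : Equiv.Perm (Fin n)) (z : X n) : ℂ :=
  ∏ i, g κ N t i ((z i : ℤ) - k (τ i)) -
    Complex.exp (((∑ j, t j * (k (τ j) : ℝ) : ℝ) : ℂ) * Complex.I) * ∏ i, g κ N t i (z i)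

/-- The large box. -/
def P (n κ N : ℕ) : Finset (X n) :=
  Fintype.piFinset fun i : Fin n => Finset.Ico ((i : ℕ) * N) (((i : ℕ) + 1) * N + 2 * κ)

/-- The small box. -/
def Q (n κ N : ℕ) : Finset (X n) :=
  Fintype.piFinset fun i : Fin n => Finset.Ico ((i : ℕ) * N + 2 * κ) (((i : ℕ) + 1) * N)

lemma card_P (n κ N : ℕ) : (P n κ N).card = (N + 2 * κ) ^ n := by
  unfold P
  rw [Fintype.card_piFinset]
  have : ∀ i : Fin n, (Finset.Ico ((i : ℕ) * N) (((i : ℕ) + 1) * N + 2 * κ)).card = N + 2 * κ := by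
    intro i
    rw [Nat.card_Ico]
    have : ((i : ℕ) + 1) * N = (i : ℕ) * N + N := by ring
    omega
  simp [this]

lemma card_Q (n κ N : ℕ) : (Q n κ N).card = (N - 2 * κ) ^ n := by
  unfold Q
  rw [Fintype.card_piFinset]
  have : ∀ i : Fin n, (Finset.Ico ((i : ℕ) * N + 2 * κ) (((i : ℕ) + 1) * N)).card = N - 2 * κ := by
    intro i
    rw [Nat.card_Ico]
    have : ((i : ℕ) + 1) * N = (i : ℕ) * N + N := by ring
    omega
  simp [this]

lemma Q_sub_P (n κ N : ℕ) : Q n κ N ⊆ P n κ N := by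
  intro z hz
  unfold Q at hz
  unfold P
  rw [Fintype.mem_piFinset] at hz ⊢
  intro i
  have := hz i
  rw [Finset.mem_Ico] at this ⊢
  omega

lemma F_out {n : ℕ} (κ N : ℕ) (k : Fin n → ℤ) (t : Fin n → ℝ) (hk : ∀ j, |k j| ≤ κ)
    (τ : Equiv.Perm (Fin n)) (z : X n) (hz : z ∉ P n κ N) : F κ N k t τ z = 0 := by
  unfold P at hz
  rw [Fintype.mem_piFinset] at hz
  push Not at hz
  obtain ⟨i, hi⟩ := hz
  rw [Finset.mem_Ico] at hi
  have hki := abs_le.1 (hk (τ i))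
  have e : ((i : ℕ) + 1) * N = (i : ℕ) * N + N := by ring
  have e' : (((i : ℕ) : ℤ) + 1) * N = (i : ℕ) * N + N := by ring
  have h1 : g κ N t i ((z i : ℤ) - k (τ i)) = 0 := by
    apply g_of_not
    rintro ⟨h1, h2⟩
    apply hi
    zify
    rw [e'] at h2 ⊢
    constructor <;> omega
  have h2 : g κ N t i (z i : ℤ) = 0 := by
    apply g_of_not
    rintro ⟨h1, h2⟩
    apply hi
    zify
    rw [e'] at h2 ⊢
    constructor <;> omega
  unfold F
  rw [Finset.prod_eq_zero (Finset.mem_univ i) h1, Finset.prod_eq_zero (Finset.mem_univ i) h2]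
  simp

lemma F_in {n : ℕ} (κ N : ℕ) (k : Fin n → ℤ) (t : Fin n → ℝ) (hk : ∀ j, |k j| ≤ κ)
    (τ : Equiv.Perm (Fin n)) (z : X n) (hz : z ∈ Q n κ N) : F κ N k t τ z = 0 := by
  unfold Q at hz
  rw [Fintype.mem_piFinset] at hz
  unfold F
  rw [Complex.ofReal_sum, Finset.sum_mul, Complex.exp_sum, ← Finset.prod_mul_distrib, sub_eq_zero]
  apply Finset.prod_congr rfl
  intro i _
  have hi := hz i
  rw [Finset.mem_Ico] at hi
  have hki := abs_le.1 (hk (τ i))
  have e' : (((i : ℕ) : ℤ) + 1) * N = (i : ℕ) * N + N := by ring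
  have hi1 : ((i : ℕ) : ℤ) * N + 2 * κ ≤ (z i : ℤ) := by exact_mod_cast hi.1
  have hi2 : (z i : ℤ) < (((i : ℕ) : ℤ) + 1) * N := by exact_mod_cast hi.2
  rw [e'] at hi2
  unfold g
  rw [if_pos, if_pos, ← Complex.exp_add]
  · congr 1
    push_cast
    ring
  · rw [e']
    constructor <;> omega
  · rw [e']
    constructor <;> omega

lemma prod_norm_le {n : ℕ} (κ N : ℕ) (t : Fin n → ℝ) (m : Fin n → ℤ) :
    ‖∏ i, g κ N t i (m i)‖ ≤ 1 := by
  rw [norm_prod]
  apply Finset.prod_le_one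
  · intro i _; exact norm_nonneg _
  · intro i _; exact g_norm_le κ N t i (m i)

lemma F_norm {n : ℕ} (κ N : ℕ) (k : Fin n → ℤ) (t : Fin n → ℝ)
    (τ : Equiv.Perm (Fin n)) (z : X n) : ‖F κ N k t τ z‖ ^ 2 ≤ 4 := by
  have h : ‖F κ N k t τ z‖ ≤ 2 := by
    unfold F
    refine (norm_sub_le _ _).trans ?_
    rw [norm_mul, Complex.norm_exp_ofReal_mul_I, one_mul]
    have h1 := prod_norm_le κ N t (fun i => (z i : ℤ) - k (τ i))
    have h2 := prod_norm_le κ N t (fun i => (z i : ℤ))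
    linarith
  have := norm_nonneg (F κ N k t τ z)
  nlinarith

lemma F_sq {n : ℕ} (κ N : ℕ) (k : Fin n → ℤ) (t : Fin n → ℝ) (hk : ∀ j, |k j| ≤ κ)
    (hN : 2 * κ ≤ N) (τ : Equiv.Perm (Fin n)) :
    Sq (F κ N k t τ) ∧
      nn (F κ N k t τ) ≤ Real.sqrt (4 * (((N : ℝ) + 2 * κ) ^ n - ((N : ℝ) - 2 * κ) ^ n)) := by
  have h0 : ∀ z ∉ P n κ N, ‖F κ N k t τ z‖ ^ 2 = 0 := by
    intro z hz
    rw [F_out κ N k t hk τ z hz]
    simp
  constructor
  · exact summable_of_ne_finset_zero h0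
  · unfold nn
    apply Real.sqrt_le_sqrt
    rw [tsum_eq_sum h0]
    rw [← Finset.sum_sdiff (Q_sub_P n κ N)]
    have h1 : ∑ z ∈ Q n κ N, ‖F κ N k t τ z‖ ^ 2 = 0 := by
      apply Finset.sum_eq_zero
      intro z hz
      rw [F_in κ N k t hk τ z hz]
      simp
    rw [h1, add_zero]
    refine (Finset.sum_le_card_nsmul _ _ 4 fun z _ => F_norm κ N k t τ z).trans ?_
    rw [Finset.card_sdiff_of_subset (Q_sub_P n κ N), card_P, card_Q, nsmul_eq_mul, mul_comm]
    have h2 : (N - 2 * κ) ^ n ≤ (N + 2 * κ) ^ n := Nat.pow_le_pow_left (by omega) n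
    rw [Nat.cast_sub h2]
    push_cast [Nat.cast_sub hN]
    exact le_refl _

/-- The product of the characters on the box. -/
def G {n : ℕ} (κ N : ℕ) (t : Fin n → ℝ) (z : X n) : ℂ := ∏ i, g κ N t i (z i)

lemma G_sq {n : ℕ} (κ N : ℕ) (t : Fin n → ℝ) : Sq (G κ N t) := by
  apply summable_of_ne_finset_zero (s := P n κ N)
  intro z hz
  unfold P at hz
  rw [Fintype.mem_piFinset] at hz
  push Not at hz
  obtain ⟨i, hi⟩ := hz
  rw [Finset.mem_Ico] at hi
  have e' : (((i : ℕ) : ℤ) + 1) * N = (i : ℕ) * N + N := by ring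
  have h2 : g κ N t i (z i : ℤ) = 0 := by
    apply g_of_not
    rintro ⟨h1, h2⟩
    apply hi
    zify
    rw [e'] at h2 ⊢
    constructor <;> omega
  unfold G
  rw [Finset.prod_eq_zero (Finset.mem_univ i) h2]
  simp

lemma sq_comp {n : ℕ} (v : X n → ℂ) (σ : Equiv.Perm (Fin n)) (hv : Sq v) :
    Sq (fun x : X n => v (fun j => x (σ j))) := by
  have := (Equiv.summable_iff (σ.symm.arrowCongr (Equiv.refl ℕ))
    (f := fun x : X n => ‖v x‖ ^ 2)).2 hv
  exact this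

lemma nn_comp {n : ℕ} (v : X n → ℂ) (σ : Equiv.Perm (Fin n)) :
    nn (fun x : X n => v (fun j => x (σ j))) = nn v := by
  unfold nn
  congr 1
  exact Equiv.tsum_eq (σ.symm.arrowCongr (Equiv.refl ℕ)) (fun x : X n => ‖v x‖ ^ 2)

lemma nn_zero (n : ℕ) : nn (fun _ : X n => (0 : ℂ)) = 0 := by
  unfold nn
  simp

lemma sq_zero (n : ℕ) : Sq (fun _ : X n => (0 : ℂ)) := by
  unfold Sq
  simp [summable_zero]

lemma sum_sq (h : S_bas) {n : ℕ} {ι : Type} (s : Finset ι) (f : ι → X n → ℂ) (C : ℝ)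
    (hf : ∀ i ∈ s, Sq (f i) ∧ nn (f i) ≤ C) :
    Sq (fun x => ∑ i ∈ s, f i x) ∧ nn (fun x => ∑ i ∈ s, f i x) ≤ s.card * C := by
  classical
  induction s using Finset.induction_on with
  | empty =>
    simp only [Finset.sum_empty, Finset.card_empty, Nat.cast_zero, zero_mul]
    exact ⟨sq_zero n, (nn_zero n).le⟩
  | insert a s ha ih =>
    have h1 := ih fun i hi => hf i (Finset.mem_insert_of_mem hi)
    have h2 := hf a (Finset.mem_insert_self a s)
    have h3 := (h n).1 (f a) (fun x => ∑ i ∈ s, f i x) h2.1 h1.1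
    simp only [Finset.sum_insert ha, Finset.card_insert_of_notMem ha]
    refine ⟨h3.1, h3.2.trans ?_⟩
    push_cast
    linarith [h1.2, h2.2]

lemma chi_norm {n : ℕ} (b : Bool) (σ : Equiv.Perm (Fin n)) : ‖chi b σ‖ = 1 := by
  unfold chi
  split_ifs
  · rcases Int.units_eq_one_or (Equiv.Perm.sign σ) with h | h <;> simp [h]
  · simp

lemma chi_mul {n : ℕ} (b : Bool) (σ τ : Equiv.Perm (Fin n)) :
    chi b (σ * τ) = chi b σ * chi b τ := by
  unfold chi
  split_ifs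
  · rw [Equiv.Perm.sign_mul]
    push_cast
    ring
  · simp

/-- The approximate eigenfunction. -/
def u {n : ℕ} (b : Bool) (κ N : ℕ) (t : Fin n → ℝ) (x : X n) : ℂ :=
  ∑ σ : Equiv.Perm (Fin n), chi b σ * G κ N t (fun j => x (σ j))

lemma u_sq (h : S_bas) {n : ℕ} (b : Bool) (κ N : ℕ) (t : Fin n → ℝ) : Sq (u b κ N t) := by
  have := sum_sq h (Finset.univ : Finset (Equiv.Perm (Fin n)))
    (fun σ x => chi b σ * G κ N t (fun j => x (σ j))) (nn (G κ N t)) (by
      intro σ _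
      have h1 := (h n).2.1 (chi b σ) _ (sq_comp (G κ N t) σ (G_sq κ N t))
      refine ⟨h1.1, ?_⟩
      rw [h1.2, chi_norm, one_mul, nn_comp])
  exact this.1

lemma u_mem (h : S_bas) {n : ℕ} (b : Bool) (κ N : ℕ) (t : Fin n → ℝ) : u b κ N t ∈ M n b := by
  refine ⟨u_sq h b κ N t, ?_⟩
  intro π x
  unfold u
  rw [Finset.mul_sum]
  rw [← Equiv.sum_comp (Equiv.mulLeft π)
    (fun σ : Equiv.Perm (Fin n) => chi b π * (chi b σ * G κ N t (fun j => x (σ j))))]
  apply Finset.sum_congr rfl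
  intro σ _
  have e : chi b π * chi b π = 1 := by
    unfold chi
    split_ifs
    · rcases Int.units_eq_one_or (Equiv.Perm.sign π) with h | h <;> simp [h]
    · simp
  rw [Equiv.coe_mulLeft, chi_mul]
  simp only [Equiv.Perm.coe_mul, Function.comp_apply]
  linear_combination (-(chi b σ * G κ N t fun j => x (π (σ j)))) * e

lemma W_u {n : ℕ} (b : Bool) (κ N : ℕ) (k : Fin n → ℤ) (t : Fin n → ℝ)
    (π : Equiv.Perm (Fin n)) (y : X n) :
    W (fun j => k (π j)) (u b κ N t) y =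
      ∑ σ : Equiv.Perm (Fin n), chi b σ * ∏ i, g κ N t i ((y (σ i) : ℤ) - k ((π * σ) i)) := by
  unfold W
  split_ifs with h
  · unfold u G
    apply Finset.sum_congr rfl
    intro σ _
    congr 1
    apply Finset.prod_congr rfl
    intro i _
    rw [Int.toNat_of_nonneg (h (σ i))]
    rfl
  · push Not at h
    obtain ⟨j, hj⟩ := h
    symm
    apply Finset.sum_eq_zero
    intro σ _
    rw [Finset.prod_eq_zero (Finset.mem_univ (σ⁻¹ j)), mul_zero]
    apply g_neg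
    simpa using hj

lemma diff_eq {n : ℕ} (b : Bool) (κ N : ℕ) (k : Fin n → ℤ) (t : Fin n → ℝ) (y : X n) :
    T k (u b κ N t) y - sy k t * u b κ N t y =
      1 / (n.factorial : ℂ) * ∑ π : Equiv.Perm (Fin n), ∑ σ : Equiv.Perm (Fin n),
        chi b σ * F κ N k t (π * σ) (fun j => y (σ j)) := by
  unfold T sy
  rw [mul_assoc, ← mul_sub]
  congr 1
  have h1 : (∑ π : Equiv.Perm (Fin n),
      Complex.exp (((∑ j, t j * (k (π j) : ℝ) : ℝ) : ℂ) * Complex.I)) * u b κ N t y =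
      ∑ π : Equiv.Perm (Fin n), ∑ σ : Equiv.Perm (Fin n), chi b σ *
        (Complex.exp (((∑ j, t j * (k ((π * σ) j) : ℝ) : ℝ) : ℂ) * Complex.I) *
          ∏ i, g κ N t i (y (σ i))) := by
    rw [Finset.sum_comm]
    unfold u
    rw [Finset.mul_sum]
    apply Finset.sum_congr rfl
    intro σ _
    rw [← Equiv.sum_comp (Equiv.mulRight σ)
      (fun π : Equiv.Perm (Fin n) =>
        Complex.exp (((∑ j, t j * (k (π j) : ℝ) : ℝ) : ℂ) * Complex.I))]
    rw [Finset.sum_mul]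
    apply Finset.sum_congr rfl
    intro π _
    rw [Equiv.coe_mulRight]
    unfold G
    ring
  rw [h1, ← Finset.sum_sub_distrib]
  apply Finset.sum_congr rfl
  intro π _
  rw [W_u, ← Finset.sum_sub_distrib]
  apply Finset.sum_congr rfl
  intro σ _
  unfold F
  ring

lemma diff_nn (h : S_bas) {n : ℕ} (b : Bool) (κ N : ℕ) (k : Fin n → ℤ) (t : Fin n → ℝ) (C : ℝ)
    (hC : ∀ τ : Equiv.Perm (Fin n), Sq (F κ N k t τ) ∧ nn (F κ N k t τ) ≤ C) :
    nn (fun y => T k (u b κ N t) y - sy k t * u b κ N t y) ≤ n.factorial * C := by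
  have e : (fun y => T k (u b κ N t) y - sy k t * u b κ N t y) = fun y =>
      1 / (n.factorial : ℂ) * ∑ π : Equiv.Perm (Fin n), ∑ σ : Equiv.Perm (Fin n),
        chi b σ * F κ N k t (π * σ) (fun j => y (σ j)) := by
    funext y
    exact diff_eq b κ N k t y
  have hcard : ((Finset.univ : Finset (Equiv.Perm (Fin n))).card : ℝ) = n.factorial := by
    rw [Finset.card_univ, Fintype.card_perm, Fintype.card_fin]
  have h1 : ∀ π : Equiv.Perm (Fin n), Sq (fun y => ∑ σ : Equiv.Perm (Fin n),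
      chi b σ * F κ N k t (π * σ) (fun j => y (σ j))) ∧ nn (fun y => ∑ σ : Equiv.Perm (Fin n),
      chi b σ * F κ N k t (π * σ) (fun j => y (σ j))) ≤ n.factorial * C := by
    intro π
    have := sum_sq h (Finset.univ : Finset (Equiv.Perm (Fin n)))
      (fun σ y => chi b σ * F κ N k t (π * σ) (fun j => y (σ j))) C (by
        intro σ _
        have h1 := (h n).2.1 (chi b σ) _ (sq_comp (F κ N k t (π * σ)) σ (hC (π * σ)).1)
        refine ⟨h1.1, ?_⟩
        rw [h1.2, chi_norm, one_mul, nn_comp]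
        exact (hC (π * σ)).2)
    rw [hcard] at this
    exact this
  have h2 := sum_sq h (Finset.univ : Finset (Equiv.Perm (Fin n)))
    (fun π y => ∑ σ : Equiv.Perm (Fin n),
      chi b σ * F κ N k t (π * σ) (fun j => y (σ j))) (n.factorial * C) (fun π _ => h1 π)
  rw [hcard] at h2
  have h3 := (h n).2.1 (1 / (n.factorial : ℂ)) _ h2.1
  rw [e, h3.2]
  have hf : (0 : ℝ) < n.factorial := by exact_mod_cast n.factorial_pos
  rw [norm_div, norm_one, Complex.norm_natCast]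
  calc 1 / (n.factorial : ℝ) * _ ≤ 1 / (n.factorial : ℝ) * (n.factorial * (n.factorial * C)) :=
        mul_le_mul_of_nonneg_left h2.2 (by positivity)
    _ = n.factorial * C := by field_simp

/-- The box. -/
def B (n κ N : ℕ) : Finset (X n) :=
  Fintype.piFinset fun i : Fin n => Finset.Ico (κ + (i : ℕ) * N) (κ + ((i : ℕ) + 1) * N)

lemma card_B (n κ N : ℕ) : (B n κ N).card = N ^ n := by
  unfold B
  rw [Fintype.card_piFinset]
  have : ∀ i : Fin n,
      (Finset.Ico (κ + (i : ℕ) * N) (κ + ((i : ℕ) + 1) * N)).card = N := by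
    intro i
    rw [Nat.card_Ico]
    have : ((i : ℕ) + 1) * N = (i : ℕ) * N + N := by ring
    omega
  simp [this]

lemma u_on_B {n : ℕ} (b : Bool) (κ N : ℕ) (t : Fin n → ℝ) (x : X n) (hx : x ∈ B n κ N) :
    ‖u b κ N t x‖ = 1 := by
  unfold B at hx
  rw [Fintype.mem_piFinset] at hx
  have hx' : ∀ i : Fin n, (κ : ℤ) + ((i : ℕ) : ℤ) * N ≤ (x i : ℤ) ∧
      (x i : ℤ) < (κ : ℤ) + (((i : ℕ) : ℤ) + 1) * N := by
    intro i
    have := hx i
    rw [Finset.mem_Ico] at this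
    exact ⟨by exact_mod_cast this.1, by exact_mod_cast this.2⟩
  unfold u
  rw [Finset.sum_eq_single (1 : Equiv.Perm (Fin n))]
  · rw [norm_mul, chi_norm, one_mul]
    unfold G
    rw [norm_prod]
    apply Finset.prod_eq_one
    intro i _
    unfold g
    rw [if_pos (by simpa using hx' i), Complex.norm_exp_ofReal_mul_I]
  · intro σ _ hσ
    have : ∃ i, σ i ≠ i := by
      by_contra hcon
      push Not at hcon
      exact hσ (Equiv.ext hcon)
    obtain ⟨i, hi⟩ := this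
    unfold G
    rw [Finset.prod_eq_zero (Finset.mem_univ i), mul_zero]
    apply g_of_not
    rintro ⟨h1, h2⟩
    have h3 := hx' (σ i)
    have hne : ((σ i : Fin n) : ℕ) ≠ (i : ℕ) := fun hh => hi (Fin.ext hh)
    rcases lt_or_gt_of_ne hne with hlt | hlt
    · have h4 : (((σ i : Fin n) : ℕ) : ℤ) + 1 ≤ ((i : ℕ) : ℤ) := by exact_mod_cast hlt
      have h5 : ((((σ i : Fin n) : ℕ) : ℤ) + 1) * N ≤ ((i : ℕ) : ℤ) * N :=
        mul_le_mul_of_nonneg_right h4 (by positivity)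
      linarith [h3.2]
    · have h4 : ((i : ℕ) : ℤ) + 1 ≤ (((σ i : Fin n) : ℕ) : ℤ) := by exact_mod_cast hlt
      have h5 : (((i : ℕ) : ℤ) + 1) * N ≤ (((σ i : Fin n) : ℕ) : ℤ) * N :=
        mul_le_mul_of_nonneg_right h4 (by positivity)
      linarith [h3.1]
  · intro hh
    exact absurd (Finset.mem_univ _) hh

lemma u_nn (h : S_bas) {n : ℕ} (b : Bool) (κ N : ℕ) (t : Fin n → ℝ) :
    Real.sqrt ((N : ℝ) ^ n) ≤ nn (u b κ N t) := by
  unfold nn
  apply Real.sqrt_le_sqrt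
  have h1 := (u_sq h b κ N t).sum_le_tsum (B n κ N) (fun x _ => by positivity)
  refine le_trans ?_ h1
  rw [Finset.sum_congr rfl (fun x hx => by rw [u_on_B b κ N t x hx])]
  simp [card_B]

lemma exists_N (n κ : ℕ) (δ : ℝ) (hδ : 0 < δ) :
    ∃ N : ℕ, 0 < N ∧ 2 * κ ≤ N ∧
      ((N : ℝ) + 2 * κ) ^ n - ((N : ℝ) - 2 * κ) ^ n ≤ δ * (N : ℝ) ^ n := by
  have h1 : Tendsto (fun N : ℕ => (1 + 2 * (κ : ℝ) / (N : ℝ)) ^ n - (1 - 2 * (κ : ℝ) / (N : ℝ)) ^ n)
      atTop (𝓝 ((1 + 0) ^ n - (1 - 0) ^ n)) := by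
    have h0 : Tendsto (fun N : ℕ => 2 * (κ : ℝ) / (N : ℝ)) atTop (𝓝 0) :=
      tendsto_const_div_atTop_nhds_zero_nat _
    exact ((tendsto_const_nhds.add h0).pow n).sub ((tendsto_const_nhds.sub h0).pow n)
  have h2 : (((1 : ℝ) + 0) ^ n - (1 - 0) ^ n) < δ := by simpa using hδ
  have h3 := (h1.eventually (gt_mem_nhds h2)).and (eventually_ge_atTop (2 * κ + 1))
  obtain ⟨N, hN1, hN2⟩ := h3.exists
  have hN0 : (0 : ℝ) < N := by
    have : 0 < N := by omega
    exact_mod_cast this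
  refine ⟨N, by omega, by omega, ?_⟩
  have e1 : ((N : ℝ) + 2 * κ) ^ n = (1 + 2 * (κ : ℝ) / (N : ℝ)) ^ n * (N : ℝ) ^ n := by
    rw [← mul_pow]; congr 1; field_simp
  have e2 : ((N : ℝ) - 2 * κ) ^ n = (1 - 2 * (κ : ℝ) / (N : ℝ)) ^ n * (N : ℝ) ^ n := by
    rw [← mul_pow]; congr 1; field_simp
  rw [e1, e2, ← sub_mul]
  exact mul_le_mul_of_nonneg_right hN1.le (by positivity)

/-- **Job BOX.** -/
theorem box (h : S_bas) : S_box := by
  intro n k b t ε hε
  set κ : ℕ := ∑ j, (k j).natAbs with hκ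
  have hk : ∀ j, |k j| ≤ (κ : ℤ) := by
    intro j
    rw [Int.abs_eq_natAbs]
    have : (k j).natAbs ≤ κ := Finset.single_le_sum (f := fun j => (k j).natAbs)
      (fun _ _ => Nat.zero_le _) (Finset.mem_univ j)
    exact_mod_cast this
  have hf : (0 : ℝ) < n.factorial := by exact_mod_cast n.factorial_pos
  obtain ⟨N, hN0, hN1, hN2⟩ := exists_N n κ (ε ^ 2 / (4 * (n.factorial : ℝ) ^ 2)) (by positivity)
  have hlow := u_nn h b κ N t
  have hNn : (0 : ℝ) < (N : ℝ) ^ n := by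
    have : (0 : ℝ) < N := by exact_mod_cast hN0
    positivity
  have hpos : 0 < Real.sqrt ((N : ℝ) ^ n) := Real.sqrt_pos.2 hNn
  refine ⟨u b κ N t, u_mem h b κ N t, hpos.trans_le hlow, ?_⟩
  have h1 := diff_nn h b κ N k t _ (fun τ => F_sq κ N k t hk hN1 τ)
  refine h1.trans ?_
  refine le_trans ?_ (mul_le_mul_of_nonneg_left hlow hε.le)
  have h2 : (n.factorial : ℝ) * Real.sqrt (4 * (((N : ℝ) + 2 * κ) ^ n - ((N : ℝ) - 2 * κ) ^ n)) ≤
      (n.factorial : ℝ) * Real.sqrt ((ε / n.factorial) ^ 2 * (N : ℝ) ^ n) := by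
    apply mul_le_mul_of_nonneg_left _ hf.le
    apply Real.sqrt_le_sqrt
    calc 4 * (((N : ℝ) + 2 * κ) ^ n - ((N : ℝ) - 2 * κ) ^ n)
        ≤ 4 * (ε ^ 2 / (4 * (n.factorial : ℝ) ^ 2) * (N : ℝ) ^ n) := by linarith
      _ = (ε / n.factorial) ^ 2 * (N : ℝ) ^ n := by field_simp
  refine h2.trans ?_
  rw [Real.sqrt_mul (by positivity), Real.sqrt_sq (by positivity)]
  apply le_of_eq
  field_simp

end Pool.Agent.Q194.MT_BOX
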