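import Mathlib
import Pool.Agent.Q2.PM.Stm

/-! Job C8 of project PM -/

set_option autoImplicit false

namespace Q194.PM_C8

open Subgroup Q2.PM
open Q2.TN (IsPNil IsSyl IsChief Nm)

/-- products of elements outside a subgroup of index two -/
lemma prod_mem {A : Type} [CommGroup A] {S : Subgroup A} (hS : S.index = 2) {ι : Type}
    (s : Finset ι) (g : ι → A) (hg : ∀ i, g i ∉ S) : (∏ i ∈ s, g i) ∈ S ↔ Even s.card := by
  classical
  induction s using Finset.induction_on with
  | empty => simp [S.one_mem]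
  | insert a s ha ih =>
    rw [Finset.prod_insert ha, Subgroup.mul_mem_iff_of_index_two hS, ih, Finset.card_insert_of_notMem ha,
      Nat.even_add_one]
    have := hg a
    tauto

/-- fixed points outside a subgroup of index two -/
lemma exists_fixed {A : Type} [Group A] (hc : ∀ a b : A, a * b = b * a) {S : Subgroup A}
    (hS : S.index = 2) {Q : Type} [Group Q] [Finite Q] (hQ : Odd (Nat.card Q)) (φ : Q →* MulAut A)
    (hφ : ∀ q, ∀ s ∈ S, φ q s ∈ S) : ∃ a, a ∉ S ∧ ∀ q, φ q a = a := by
  classical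
  let i1 : CommGroup A := { (inferInstance : Group A) with mul_comm := hc }
  have _ := Fintype.ofFinite Q
  have h1 : ∃ c, c ∉ S := by
    by_contra h
    push Not at h
    have : S = ⊤ := (Subgroup.eq_top_iff' S).2 h
    rw [this, Subgroup.index_top] at hS
    omega
  obtain ⟨c, hcS⟩ := h1
  have h2 : ∀ q, φ q c ∉ S := by
    intro q hq
    have := hφ q⁻¹ _ hq
    rw [← MulAut.mul_apply, ← map_mul, inv_mul_cancel, map_one, MulAut.one_apply] at this
    exact hcS this
  refine ⟨∏ q : Q, φ q c, ?_, fun r => ?_⟩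
  · rw [prod_mem hS _ _ h2, Finset.card_univ, ← Nat.card_eq_fintype_card, Nat.not_even_iff_odd]
    exact hQ
  · have h3 : φ r (∏ q : Q, φ q c) = ∏ q : Q, φ r (φ q c) := map_prod (φ r) _ _
    rw [h3]
    refine Fintype.prod_equiv (Equiv.mulLeft r) _ _ fun q => ?_
    rw [Equiv.coe_mulLeft, map_mul, MulAut.mul_apply]

variable {G : Type} [Group G] [Finite G]

/-- a fixed point in `L` -/
lemma exists_central {T L F : Subgroup G} (hT : T.Normal) (hL : L.Normal)
    (hab : ∀ x ∈ L, ∀ y ∈ L, x * y = y * x) (hodd : Odd (L.relIndex F))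
    (hTL : T.relIndex L = 2) : ∃ a ∈ L, a ∉ T ∧ ∀ f ∈ F, f * a = a * f := by
  have hN : (L.subgroupOf F).Normal := hL.subgroupOf F
  let ψ : F →* MulAut L := (MulAut.conjNormal (H := L)).comp F.subtype
  have hψ : ∀ x ∈ L.subgroupOf F, ψ x = 1 := by
    intro x hx
    ext y
    have h1 := hab _ (Subgroup.mem_subgroupOf.1 hx) _ y.2
    simp only [ψ, MonoidHom.comp_apply, MulAut.conjNormal_apply, MulAut.one_apply, Subgroup.coe_subtype]
    rw [h1, mul_inv_cancel_right]
  let φ : F ⧸ (L.subgroupOf F) →* MulAut L := QuotientGroup.lift _ ψ hψ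
  have hidx : (T.subgroupOf L).index = 2 := hTL
  have hcard : Odd (Nat.card (F ⧸ (L.subgroupOf F))) := hodd
  obtain ⟨a, ha, hfix⟩ := exists_fixed (A := L) (fun a b => Subtype.ext (hab _ a.2 _ b.2)) hidx hcard φ (by
    intro q s hs
    induction q using QuotientGroup.induction_on with
    | H f =>
      have h2 : φ (f : F ⧸ (L.subgroupOf F)) = ψ f := QuotientGroup.lift_mk _ _ _
      rw [h2, Subgroup.mem_subgroupOf]
      simp only [ψ, MonoidHom.comp_apply, MulAut.conjNormal_apply, Subgroup.coe_subtype]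
      exact hT.conj_mem _ (Subgroup.mem_subgroupOf.1 hs) _)
  refine ⟨a, a.2, fun h => ha (Subgroup.mem_subgroupOf.2 h), fun f hf => ?_⟩
  have h3 := hfix ((⟨f, hf⟩ : F) : F ⧸ (L.subgroupOf F))
  have h2 : φ ((⟨f, hf⟩ : F) : F ⧸ (L.subgroupOf F)) = ψ ⟨f, hf⟩ := QuotientGroup.lift_mk _ _ _
  rw [h2] at h3
  have h4 := congrArg (fun z : L => (z : G)) h3
  simp only [ψ, MonoidHom.comp_apply, MulAut.conjNormal_apply, Subgroup.coe_subtype] at h4
  calc f * (a : G) = f * a * f⁻¹ * f := by group
    _ = a * f := by rw [h4]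

theorem c8 (h8 : S_B8) (c4 : S_C4) : S_C8 := by
  intro k G _ _ P T L F henv hmin hk hTc hL hTL hLc hab hsq hF hLF hodd
  obtain ⟨hT, hTne, hTp, hTmin⟩ := id hmin
  have hLp : IsPGroup 2 L := IsPGroup.of_card hLc
  have hrel : T.relIndex L = 2 := by
    have h1 := Subgroup.relIndex_mul_relIndex ⊥ T L bot_le hTL
    rw [Subgroup.relIndex_bot_left, Subgroup.relIndex_bot_left, hTc, hLc] at h1
    obtain ⟨j, rfl⟩ : ∃ j, k = j + 1 := ⟨k - 1, by omega⟩
    rw [Nat.add_sub_cancel, pow_succ] at h1
    exact Nat.eq_of_mul_eq_mul_left (by positivity) h1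
  -- the centralizer of `L` in `F`
  have hC : F ⊓ centralizer (L : Set G) = L := by
    have hLC : L ≤ F ⊓ centralizer (L : Set G) := by
      refine le_inf hLF fun x hx => ?_
      rw [Subgroup.mem_centralizer_iff]
      intro y hy
      exact hab y hy x hx
    have hn : (F ⊓ centralizer (L : Set G)).Normal := inferInstance
    have hodd2 : Odd (L.relIndex (F ⊓ centralizer (L : Set G))) := by
      have h1 := Subgroup.relIndex_mul_relIndex L _ F hLC inf_le_left
      rw [← h1] at hodd
      exact (Nat.odd_mul.1 hodd).1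
    obtain ⟨O, hO1, hO2, hO3⟩ := h8 G L (F ⊓ centralizer (L : Set G)) hL hn hLC hLp
      (fun x hx y hy => (Subgroup.mem_centralizer_iff.1 hy.2) x hx) hodd2
    rw [henv.odd O hO1 hO2, sup_bot_eq] at hO3
    exact hO3.symm
  have hTn : (T ⊓ centralizer (F : Set G)).Normal := inferInstance
  rcases hTmin _ hTn inf_le_left with h0 | h0
  · -- the case of a trivial intersection
    exfalso
    obtain ⟨a, haL, haT, haF⟩ := exists_central hT hL hab hodd hrel
    have hMn : (L ⊓ centralizer (F : Set G)).Normal := inferInstance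
    have haM : a ∈ L ⊓ centralizer (F : Set G) :=
      ⟨haL, Subgroup.mem_centralizer_iff.2 fun f hf => haF f hf⟩
    have hMT : ∀ x ∈ L ⊓ centralizer (F : Set G), x ∈ T → x = 1 := by
      intro x hx hxT
      have : x ∈ T ⊓ centralizer (F : Set G) := ⟨hxT, hx.2⟩
      rw [h0] at this
      exact Subgroup.mem_bot.1 this
    have hne : Nat.card (L ⊓ centralizer (F : Set G) : Subgroup G) ≠ 1 := by
      intro h1
      rw [Subgroup.eq_bot_of_card_eq _ h1] at haM
      rw [Subgroup.mem_bot.1 haM] at haT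
      exact haT T.one_mem
    have hMc : Nat.card (L ⊓ centralizer (F : Set G) : Subgroup G) = 2 := by
      have h1 : T.relIndex (L ⊓ centralizer (F : Set G)) ≤ T.relIndex L :=
        Subgroup.relIndex_le_of_le_right inf_le_left (by rw [hrel]; norm_num)
      have h2 : T ⊓ (L ⊓ centralizer (F : Set G)) = ⊥ :=
        (Subgroup.eq_bot_iff_forall _).2 fun x hx => hMT x hx.2 hx.1
      rw [← Subgroup.inf_relIndex_right, h2, Subgroup.relIndex_bot_left, hrel] at h1
      have h3 : 0 < Nat.card (L ⊓ centralizer (F : Set G) : Subgroup G) := Nat.card_pos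
      omega
    have hM : Q2.PM.IsMin (L ⊓ centralizer (F : Set G)) := by
      refine ⟨hMn, ?_, ?_, ?_⟩
      · intro h
        rw [h] at hne
        exact hne Subgroup.card_bot
      · exact IsPGroup.of_card (n := 1) (by rw [hMc, pow_one])
      · intro L' hL' hle
        have h1 : Nat.card L' ∣ 2 := by
          rw [← hMc]
          exact Subgroup.card_dvd_of_le hle
        rcases (Nat.dvd_prime Nat.prime_two).1 h1 with h2 | h2
        · exact Or.inl (Subgroup.eq_bot_of_card_eq _ h2)
        · exact Or.inr (Subgroup.eq_of_le_of_card_ge hle (by rw [hMc, h2]))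
    have h4 : 4 ≤ 2 ^ (k - 1) := by
      calc 4 = 2 ^ 2 := by norm_num
        _ ≤ 2 ^ (k - 1) := Nat.pow_le_pow_right (by norm_num) (by omega)
    have h5 : 2 ^ (k - 1) ≤ 2 ^ k := Nat.pow_le_pow_right (by norm_num) (by omega)
    rcases c4 k G P _ henv hM with h6 | h6 <;> omega
  · -- the case `T ≤ C_G(F)`
    have hTF : ∀ x ∈ T, ∀ f ∈ F, f * x = x * f := by
      intro x hx f hf
      rw [← h0] at hx
      exact (Subgroup.mem_centralizer_iff.1 hx.2) f hf
    -- squares of elements of `F` centralize `L`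
    have hsqL : ∀ f ∈ F, f * f ∈ L := by
      intro f hf
      rw [← hC]
      refine ⟨F.mul_mem hf hf, Subgroup.mem_centralizer_iff.2 fun c hc => ?_⟩
      have hd : f⁻¹ * c * f ∈ L := by
        have := hL.conj_mem c hc f⁻¹
        rwa [inv_inv] at this
      have ht : c⁻¹ * (f⁻¹ * c * f) ∈ T := by
        have h1 := Subgroup.mul_mem_iff_of_index_two (H := T.subgroupOf L) hrel
          (a := (⟨c, hc⟩ : L)⁻¹) (b := ⟨f⁻¹ * c * f, hd⟩)
        rw [Subgroup.mem_subgroupOf, Subgroup.mem_subgroupOf, Subgroup.mem_subgroupOf] at h1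
        refine h1.2 ?_
        change c⁻¹ ∈ T ↔ f⁻¹ * c * f ∈ T
        rw [inv_mem_iff]
        constructor
        · intro h
          have := hT.conj_mem c h f⁻¹
          rwa [inv_inv] at this
        · intro h
          have := hT.conj_mem _ h f
          have e : f * (f⁻¹ * c * f) * f⁻¹ = c := by group
          rwa [e] at this
      set t := c⁻¹ * (f⁻¹ * c * f) with htd
      have e1 : c * f = f * (c * t) := by rw [htd]; group
      have e2 : f * t = t * f := hTF t ht f hf
      have e3 : t * t = 1 := hsq t (hTL ht)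
      calc c * (f * f) = (c * f) * f := by rw [mul_assoc]
        _ = f * c * (t * f) := by rw [e1]; simp only [mul_assoc]
        _ = f * (c * f) * t := by rw [← e2]; simp only [mul_assoc]
        _ = f * f * c * (t * t) := by rw [e1]; simp only [mul_assoc]
        _ = f * f * c := by rw [e3, mul_one]
    refine le_antisymm (fun f hf => ?_) hLF
    have hN : (L.subgroupOf F).Normal := hL.subgroupOf F
    have hq : (((⟨f, hf⟩ : F) : F ⧸ (L.subgroupOf F))) ^ 2 = 1 := by
      rw [sq, ← QuotientGroup.mk_mul, QuotientGroup.eq_one_iff, Subgroup.mem_subgroupOf]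
      exact hsqL f hf
    have h1 : orderOf ((⟨f, hf⟩ : F) : F ⧸ (L.subgroupOf F)) ∣ 2 := orderOf_dvd_of_pow_eq_one hq
    have h2 : orderOf ((⟨f, hf⟩ : F) : F ⧸ (L.subgroupOf F)) ∣ L.relIndex F := orderOf_dvd_natCard _
    have h3 : orderOf ((⟨f, hf⟩ : F) : F ⧸ (L.subgroupOf F)) = 1 := by
      refine Nat.eq_one_of_dvd_coprimes ?_ h1 h2
      exact (Nat.coprime_two_left.2 hodd)
    rw [orderOf_eq_one_iff, QuotientGroup.eq_one_iff, Subgroup.mem_subgroupOf] at h3
    exact h3

end Q194.PM_C8
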